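import Pool.Agent.Work.MP_c20ce7_dm82.FrC

set_option autoImplicit false
set_option linter.unusedSectionVars false
set_option linter.unusedSimpArgs false
set_option linter.unusedTactic false
set_option linter.unreachableTactic false

/-!
# The semi-invariant vector: the vector fields of the two special block pairs
-/

open MvPolynomial

noncomputable section

namespace Pool.DM

theorem vx12 (h : Matrix (Fin 2) (Fin 2) Ach) :
    FldEq (fnOf (((mm .q).det * (mm .u).det) • (h * mm .B) * mm .a) (-(((mm .q).det * (mm .u).det) • (mm .B * h * mm .B))) (((mm .u).det • (mm .V * mm .r * h * (mm .q).adjugate)) * mm .q + mm .q * (((mm .q).det * (mm .u).det) • (mm .B * h) - (mm .u).det • ((mm .q).adjugate * mm .p * h))) (-(mm .r * ((mm .u).det • (h * (mm .q).adjugate)))) (-(mm .u * ((mm .u).det • (mm .V * mm .r * h * (mm .q).adjugate)))) (((mm .u).det • (mm .V * mm .r * h * (mm .q).adjugate)) * mm .V) (-((mm .l).adjugate * mm .ze * mm .r * h * (mm .q).adjugate * (mm .u).adjugate))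 0 (((mm .u).det • (mm .V * mm .r * h * (mm .q).adjugate)) * mm .p - mm .p * (((mm .q).det * (mm .u).det) • (h * mm .B))) (mm .r * ((mm .u).det • (h * (mm .q).adjugate)) * mm .p - mm .r * ((mm .u).det • (h * (mm .q).adjugate)) * mm .V * mm .r - mm .r * (((mm .q).det * (mm .u).det) • (h * mm .B))) (mm .ze * (mm .r * ((mm .u).det • (h * (mm .q).adjugate)) * mm .V)) (((mm .u).det • (mm .V * mm .r * h * (mm .q).adjugate)).trace • mm .ka - mm .ka * ((mm .u).det • (mm .V * mm .r * h * (mm .q).adjugate)) - mm .ze * mm .r * ((mm .l).det • (h * (mm .q).adjugate)))) ((mm .q).det * (mm .u).det) 1 2 h := by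
  refine fldEq_of fun i' l' hm => ?_
  simp only [List.mem_cons, Prod.mk.injEq, List.not_mem_nil, or_false] at hm
  rcases hm with ⟨rfl, rfl⟩ | ⟨rfl, rfl⟩ | ⟨rfl, rfl⟩ | ⟨rfl, rfl⟩ | ⟨rfl, rfl⟩ | ⟨rfl, rfl⟩ |
    ⟨rfl, rfl⟩ | ⟨rfl, rfl⟩ | ⟨rfl, rfl⟩ | ⟨rfl, rfl⟩ | ⟨rfl, rfl⟩ | ⟨rfl, rfl⟩
  all_goals simp only [yb82_10, yb82_20, yb82_31, yb82_32, yb82_41, yb82_42, yb82_53, yb82_54, yb82_63, yb82_64, yb82_75, yb82_76,
      dm_add, dm_sub, dm_mul, dm_adj, dm_mm, fnOf, one_smul, adj0_82]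
  all_goals try simp (decide := true) only [if_true, if_false, yb82_10, yb82_20, yb82_31, yb82_32, yb82_41, yb82_42,
      yb82_53, yb82_54, yb82_63, yb82_64, yb82_75, yb82_76]
  all_goals try simp only [adj_sub82, adj_add82, adj_neg82, adj_smul82]
  all_goals try simp only [Matrix.adjugate_mul_distrib (mm .u)]
  all_goals try simp only [Matrix.adjugate_mul_distrib (mm .l)]
  all_goals try simp only [Matrix.adjugate_mul_distrib _ (mm .u)]
  all_goals try simp only [adj_sub82, adj_add82, adj_neg82, adj_smul82]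
  all_goals try simp only [adj_tr82 (h * mm .W), adj_tr82 (mm .W * h),
     adj_tr82 (mm .V * mm .r * h * (mm .q).adjugate),
     adj_tr82 ((mm .l).adjugate * mm .ka * (mm .u).adjugate * h)]
  all_goals try simp only [Matrix.trace_smul, Matrix.trace_sub, smul_eq_mul]
  all_goals try simp only [mul_add, add_mul, mul_sub, sub_mul, mul_neg, neg_mul, mul_assoc,
      smul_mul_assoc, mul_smul_comm, smul_add, smul_sub, smul_neg, one_mul, mul_one, mul_zero,
      zero_mul, adj_mulR, mul_adjR, Matrix.adjugate_mul, Matrix.mul_adjugate, smul_smul, zero_sub,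
      sub_zero, smul_zero]
  all_goals try module

theorem vx56 (h : Matrix (Fin 2) (Fin 2) Ach) :
    FldEq (fnOf 0 0 0 0 ((((mm .u).det * (mm .l).det) • (h * mm .W)) * mm .u) ((mm .l).det • ((mm .u).adjugate * h * (mm .l).adjugate * mm .ze)) (-(((mm .u).det * (mm .l).det) • (mm .W * h * mm .W))) (mm .l * (((mm .u).det * (mm .l).det) • (mm .W * h) - (mm .u).det • ((mm .l).adjugate * mm .ka * (mm .u).adjugate * h))) (((mm .l).det • ((mm .u).adjugate * h * (mm .l).adjugate)) * (mm .ze * mm .r)) 0 (((mm .u).det • ((mm .l).adjugate * mm .ka * (mm .u).adjugate * h) - ((mm .u).det * (mm .l).det) • (mm .W * h)).trace • mm .ze - mm .ka * ((mm .u).det • ((mm .u).adjugate * h * (mm .l).adjugate)) * mm .ze) (-((((mm .u).det * (mm .l).det) • (h * mm .W)).trace • mm .ka))) ((mm .u).det * (mm .l).det) 5 6 h := by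
  refine fldEq_of fun i' l' hm => ?_
  simp only [List.mem_cons, Prod.mk.injEq, List.not_mem_nil, or_false] at hm
  rcases hm with ⟨rfl, rfl⟩ | ⟨rfl, rfl⟩ | ⟨rfl, rfl⟩ | ⟨rfl, rfl⟩ | ⟨rfl, rfl⟩ | ⟨rfl, rfl⟩ |
    ⟨rfl, rfl⟩ | ⟨rfl, rfl⟩ | ⟨rfl, rfl⟩ | ⟨rfl, rfl⟩ | ⟨rfl, rfl⟩ | ⟨rfl, rfl⟩
  all_goals simp only [yb82_10, yb82_20, yb82_31, yb82_32, yb82_41, yb82_42, yb82_53, yb82_54, yb82_63, yb82_64, yb82_75, yb82_76,
      dm_add, dm_sub, dm_mul, dm_adj, dm_mm, fnOf, one_smul, adj0_82]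
  all_goals try simp (decide := true) only [if_true, if_false, yb82_10, yb82_20, yb82_31, yb82_32, yb82_41, yb82_42,
      yb82_53, yb82_54, yb82_63, yb82_64, yb82_75, yb82_76]
  all_goals try simp only [adj_sub82, adj_add82, adj_neg82, adj_smul82]
  all_goals try simp only [Matrix.adjugate_mul_distrib (mm .u)]
  all_goals try simp only [Matrix.adjugate_mul_distrib (mm .l)]
  all_goals try simp only [Matrix.adjugate_mul_distrib _ (mm .u)]
  all_goals try simp only [adj_sub82, adj_add82, adj_neg82, adj_smul82]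
  all_goals try simp only [adj_tr82 (h * mm .W), adj_tr82 (mm .W * h),
     adj_tr82 (mm .V * mm .r * h * (mm .q).adjugate),
     adj_tr82 ((mm .l).adjugate * mm .ka * (mm .u).adjugate * h)]
  all_goals try simp only [Matrix.trace_smul, Matrix.trace_sub, smul_eq_mul]
  all_goals try simp only [mul_add, add_mul, mul_sub, sub_mul, mul_neg, neg_mul, mul_assoc,
      smul_mul_assoc, mul_smul_comm, smul_add, smul_sub, smul_neg, one_mul, mul_one, mul_zero,
      zero_mul, adj_mulR, mul_adjR, Matrix.adjugate_mul, Matrix.mul_adjugate, smul_smul, zero_sub,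
      sub_zero, smul_zero]
  all_goals try module

end Pool.DM
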