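import Pool.Agent.Work.MP_c20ce7_dm82.FrD
import Pool.Agent.Work.MP_c20ce7_dm82.FrE

set_option autoImplicit false
set_option linter.unusedSectionVars false
set_option linter.unusedSimpArgs false

/-!
# The semi-invariant vector: the values of the fields and the theorem
-/

open MvPolynomial

noncomputable section

namespace Pool.DM

variable {L : Type} [AddCommGroup L] [Module ℂ L] {W : WMod Tau L} {v : L}

theorem SemiV.val (hv : SemiV W v) (a B q S u V W' l p r ze ka : Matrix (Fin 2) (Fin 2) Ach) :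
    (∑ N, W.blk N (fnOf a B q S u V W' l p r ze ka N)) v =
      W.blk .a a v + W.blk .q q v + W.blk .u u v + W.blk .l l v + W.blk .p p v + W.blk .r r v +
        W.blk .ze ze v + W.blk .ka ka v := by
  rw [sum_Bk]
  simp only [LinearMap.add_apply, fnOf, WMod.blk_cst hv.cB, WMod.blk_cst hv.cS, WMod.blk_cst hv.cV,
    WMod.blk_cst hv.cW]
  abel

theorem SemiV.val00 (hv : SemiV W v) (h : Matrix (Fin 2) (Fin 2) Ach) :
    (∑ N, W.blk N (fnOf (-(mm .a * h)) 0 0 0 0 0 0 0 0 0 0 0 N)) v = (2 : ℂ) • W.x h.trace v := by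
  rw [hv.val]
  simp only [W.blk_zero, W.blk_neg, LinearMap.zero_apply, LinearMap.neg_apply,
    WMod.right_det hv.aC]
  module

theorem SemiV.val11 (hv : SemiV W v) (h : Matrix (Fin 2) (Fin 2) Ach) :
    (∑ N, W.blk N (fnOf (h * mm .a) (-(mm .B * h)) 0 0 0 0 0 0 (-(mm .p * h)) (-(mm .r * h)) 0 0
      N)) v = (1 : ℂ) • W.x h.trace v := by
  rw [hv.val]
  simp only [W.blk_zero, W.blk_neg, LinearMap.zero_apply, LinearMap.neg_apply,
    WMod.left_det hv.aR]
  have h1 := hv.pr h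
  rw [← eq_sub_iff_add_eq] at h1
  rw [h1]
  module

theorem SemiV.val21 (hv : SemiV W v) (h : Matrix (Fin 2) (Fin 2) Ach) :
    (∑ N, W.blk N (fnOf 0 h 0 0 0 0 0 0 0 0 0 0 N)) v = 0 := by
  rw [hv.val]
  simp only [W.blk_zero, LinearMap.zero_apply, add_zero]

theorem SemiV.val22 (hv : SemiV W v) (h : Matrix (Fin 2) (Fin 2) Ach) :
    (∑ N, W.blk N (fnOf 0 (h * mm .B) (-(mm .q * h)) 0 0 0 0 0 0 0 0 0 N)) v =
      (1 : ℂ) • W.x h.trace v := by
  rw [hv.val]
  simp only [W.blk_zero, W.blk_neg, LinearMap.zero_apply, LinearMap.neg_apply,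
    WMod.right_det hv.qC]
  module

theorem SemiV.val33 (hv : SemiV W v) (h : Matrix (Fin 2) (Fin 2) Ach) :
    (∑ N, W.blk N (fnOf 0 0 (h * mm .q) (-(mm .S * h)) (-(mm .u * h)) (h * mm .V) 0 0 (h * mm .p) 0
      0 (h.trace • mm .ka - mm .ka * h) N)) v = 0 := by
  rw [hv.val]
  simp only [W.blk_zero, W.blk_neg, W.blk_sub, LinearMap.zero_apply, LinearMap.neg_apply,
    LinearMap.sub_apply, WMod.left_det hv.qR, WMod.right_det hv.uC, hv.pk, hv.ka_smul]
  module

theorem SemiV.val44 (hv : SemiV W v) (h : Matrix (Fin 2) (Fin 2) Ach) :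
    (∑ N, W.blk N (fnOf 0 0 0 (h * mm .S) 0 (-(mm .V * h)) 0 0 0 (h * mm .r) (-(mm .ze * h)) 0
      N)) v = 0 := by
  rw [hv.val]
  simp only [W.blk_zero, W.blk_neg, W.blk_sub, LinearMap.zero_apply, LinearMap.neg_apply,
    LinearMap.sub_apply, hv.rz]
  module

theorem SemiV.val43 (hv : SemiV W v) (h : Matrix (Fin 2) (Fin 2) Ach) :
    (∑ N, W.blk N (fnOf 0 0 0 h 0 0 0 0 0 0 0 0 N)) v = 0 := by
  rw [hv.val]
  simp only [W.blk_zero, LinearMap.zero_apply, add_zero]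

theorem SemiV.val34 (hv : SemiV W v) (h : Matrix (Fin 2) (Fin 2) Ach) :
    (∑ N, W.blk N (fnOf 0 0 (h * mm .S * mm .q) (-(mm .S * h * mm .S)) (-(mm .u * (h * mm .S)))
      (h * mm .S * mm .V + mm .V * mm .S * h - h) 0 0 (h * mm .S * mm .p) (-(mm .S * h * mm .r))
      (mm .ze * (mm .S * h)) ((h * mm .S).trace • mm .ka - mm .ka * (h * mm .S)) N)) v = 0 := by
  rw [hv.val]
  simp only [W.blk_zero, W.blk_neg, W.blk_sub, LinearMap.zero_apply, LinearMap.neg_apply,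
    LinearMap.sub_apply, WMod.left_det hv.qR, WMod.right_det hv.uC, hv.pk, hv.rz, hv.ka_smul]
  module

theorem SemiV.val55 (hv : SemiV W v) (h : Matrix (Fin 2) (Fin 2) Ach) :
    (∑ N, W.blk N (fnOf 0 0 0 0 (h * mm .u) 0 (-(mm .W * h)) 0 0 0 0 (-(h.trace • mm .ka)) N)) v =
      (-1 : ℂ) • W.x h.trace v := by
  rw [hv.val]
  simp only [W.blk_zero, W.blk_neg, LinearMap.zero_apply, LinearMap.neg_apply,
    WMod.left_det hv.uR, hv.ka_smul]
  module

theorem SemiV.val65 (hv : SemiV W v) (h : Matrix (Fin 2) (Fin 2) Ach) :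
    (∑ N, W.blk N (fnOf 0 0 0 0 0 0 h 0 0 0 0 0 N)) v = 0 := by
  rw [hv.val]
  simp only [W.blk_zero, LinearMap.zero_apply, add_zero]

theorem SemiV.val66 (hv : SemiV W v) (h : Matrix (Fin 2) (Fin 2) Ach) :
    (∑ N, W.blk N (fnOf 0 0 0 0 0 0 (h * mm .W) (-(mm .l * h)) 0 0 (h.trace • mm .ze) 0 N)) v =
      (-1 : ℂ) • W.x h.trace v := by
  rw [hv.val]
  simp only [W.blk_zero, W.blk_neg, LinearMap.zero_apply, LinearMap.neg_apply,
    WMod.right_det hv.lC, hv.ze_smul]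
  module

theorem SemiV.val77 (hv : SemiV W v) (h : Matrix (Fin 2) (Fin 2) Ach) :
    (∑ N, W.blk N (fnOf 0 0 0 0 0 0 0 (h * mm .l) 0 0 (h * mm .ze - h.trace • mm .ze) (h * mm .ka)
      N)) v = (-2 : ℂ) • W.x h.trace v := by
  rw [hv.val]
  simp only [W.blk_zero, W.blk_neg, W.blk_sub, LinearMap.zero_apply, LinearMap.neg_apply,
    LinearMap.sub_apply, WMod.left_det hv.lR, hv.ze_smul]
  have h1 := hv.kz h
  rw [← eq_sub_iff_add_eq] at h1
  rw [h1]
  module

theorem SemiV.val12 (hv : SemiV W v) (h : Matrix (Fin 2) (Fin 2) Ach) (f g : Ach)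
    (X cc m5 m6 m7 : Matrix (Fin 2) (Fin 2) Ach) (hc : cc = g • (h * (mm .q).adjugate))
    (hX : X = mm .V * mm .r * cc) :
    (∑ N, W.blk N (fnOf (f • (h * mm .B) * mm .a) m5
      (X * mm .q + mm .q * (f • (mm .B * h) - g • ((mm .q).adjugate * mm .p * h)))
      m6 (-(mm .u * X)) (X * mm .V) m7 0 (X * mm .p - mm .p * (f • (h * mm .B)))
      (mm .r * cc * mm .p - mm .r * cc * mm .V * mm .r - mm .r * (f • (h * mm .B)))
      (mm .ze * (mm .r * cc * mm .V))
      (X.trace • mm .ka - mm .ka * X - mm .ze * mm .r * ((mm .l).det • (h * (mm .q).adjugate)))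
      N)) v = 0 := by
  rw [hv.val]
  simp only [W.blk_zero, W.blk_neg, W.blk_sub, W.blk_add, LinearMap.zero_apply,
    LinearMap.neg_apply, LinearMap.sub_apply, LinearMap.add_apply, WMod.left_det hv.aR,
    WMod.left_det hv.qR, WMod.right_det hv.qC, WMod.right_det hv.uC, hv.pk, hv.ka_smul,
    hv.rp, hv.rz, hv.zr_right (Or.inr rfl)]
  have h1 := hv.pr (f • (h * mm .B))
  rw [← eq_sub_iff_add_eq] at h1
  rw [h1]
  have t1 : (f • (mm .B * h)).trace = (f • (h * mm .B)).trace := by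
    rw [Matrix.trace_smul, Matrix.trace_mul_comm, Matrix.trace_smul]
  have t2 : (g • ((mm .q).adjugate * mm .p * h)).trace = (cc * mm .p).trace := by
    rw [hc, smul_mul_assoc, Matrix.trace_smul, Matrix.trace_smul, Matrix.trace_mul_cycle]
  rw [Matrix.trace_sub, t1, t2, map_sub, LinearMap.sub_apply]
  module

theorem SemiV.val56 (hv : SemiV W v) (h : Matrix (Fin 2) (Fin 2) Ach) (f g : Ach)
    (m5 m6 m7 : Matrix (Fin 2) (Fin 2) Ach) :
    (∑ N, W.blk N (fnOf 0 0 0 0 ((f • (h * mm .W)) * mm .u) m5 m6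
      (mm .l * (f • (mm .W * h) - g • ((mm .l).adjugate * mm .ka * (mm .u).adjugate * h)))
      (m7 * (mm .ze * mm .r)) 0
      ((g • ((mm .l).adjugate * mm .ka * (mm .u).adjugate * h) - f • (mm .W * h)).trace • mm .ze -
        mm .ka * (g • ((mm .u).adjugate * h * (mm .l).adjugate)) * mm .ze)
      (-((f • (h * mm .W)).trace • mm .ka)) N)) v = 0 := by
  rw [hv.val]
  simp only [W.blk_zero, W.blk_neg, W.blk_sub, W.blk_add, LinearMap.zero_apply,
    LinearMap.neg_apply, LinearMap.sub_apply, LinearMap.add_apply, WMod.left_det hv.uR,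
    WMod.right_det hv.lC, hv.ka_smul, hv.ze_smul, hv.kcz, hv.zr_left (Or.inl rfl)]
  have t1 : (f • (mm .W * h)).trace = (f • (h * mm .W)).trace := by
    rw [Matrix.trace_smul, Matrix.trace_mul_comm, Matrix.trace_smul]
  have t2 : (g • ((mm .u).adjugate * h * (mm .l).adjugate) * mm .ka).trace =
      (g • ((mm .l).adjugate * mm .ka * (mm .u).adjugate * h)).trace := by
    have t0 : ∀ P H Q K : Matrix (Fin 2) (Fin 2) Ach,
        (P * H * Q * K).trace = (Q * K * P * H).trace := by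
      intro P H Q K
      rw [mul_assoc (P * H) Q K, Matrix.trace_mul_comm, ← mul_assoc (Q * K) P H]
    rw [smul_mul_assoc, Matrix.trace_smul, Matrix.trace_smul, t0]
  rw [Matrix.trace_sub, Matrix.trace_sub, t1, t2, map_sub, map_sub, LinearMap.sub_apply,
    LinearMap.sub_apply]
  module

/-- The weights. -/
def wt0 : Fin 8 → ℤ := ![2, 1, 1, 0, 0, -1, -1, -2]

theorem single_trace82 (s t : Fin 2) :
    (Matrix.single s t (1 : Ach)).trace = if s = t then 1 else 0 := by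
  fin_cases s <;> fin_cases t <;> simp [Matrix.trace_fin_two, Matrix.single_apply]

theorem inj_of_dvd82 (W : WMod Tau L) {f q : Ach} (hq : Function.Injective (W.x q)) (hf : f ∣ q) :
    Function.Injective (W.x f) := by
  obtain ⟨g, rfl⟩ := hf
  rw [mul_comm, map_mul] at hq
  exact Function.Injective.of_comp (f := W.x g) (g := W.x f) hq

/-- The block pairs with equal degree. -/
theorem pairs_deg : ∀ i j : Fin 8, dg0 i = dg0 j → (i, j) ∈ ([(0, 0), (1, 1), (1, 2), (2, 1),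
    (2, 2), (3, 3), (3, 4), (4, 3), (4, 4), (5, 5), (5, 6), (6, 5), (6, 6), (7, 7)] :
      List (Fin 8 × Fin 8)) := by
  decide

/-- The value of the weight on a pair. -/
def chi0 (a b : I0) : ℂ := if a = b then (wt0 a.1 : ℂ) else 0

theorem semi_aux (W : WMod Tau L) (W' : WMod (Co e0) L)
    (hx : ∀ k, W'.x (X k) = W.x (Ych k))
    (hd : ∀ j, W.d (X j) = ∑ k, W.x (pderiv j (Ych k)) * W'.d (X k)) (v : L)
    (FN : Bk → Matrix (Fin 2) (Fin 2) Ach) (f : Ach) (hf : Function.Injective (W.x f))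
    (i j : Fin 8) (s t : Fin 2) (c : ℂ)
    (hF : FldEq FN f i j (Matrix.single s t 1))
    (hval : (∑ N, W.blk N (FN N)) v = c • W.x f v) : W'.G (i, s) (j, t) v = c • v := by
  have h1 := congrArg (fun T => T v) (W.G_ch W' hx hd FN f i j s t hF)
  simp only [Module.End.mul_apply] at h1
  rw [hval, ← map_smul] at h1
  exact hf h1

/-- **Semi-invariance.** -/
theorem semi (W : WMod Tau L) (hv : SemiV W v) (hq : Function.Injective (W.x q0))
    (W' : WMod (Co e0) L) (hx : ∀ k, W'.x (X k) = W.x (Ych k))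
    (hd : ∀ j, W.d (X j) = ∑ k, W.x (pderiv j (Ych k)) * W'.d (X k)) (a b : I0)
    (hab : e0 a = e0 b) : W'.G a b v = chi0 a b • v := by
  obtain ⟨i, s⟩ := a
  obtain ⟨j, t⟩ := b
  have hm := pairs_deg i j hab
  have h1 : Function.Injective (W.x (1 : Ach)) := by
    rw [map_one]
    exact fun _ _ h => h
  have hqu : Function.Injective (W.x ((mm .q).det * (mm .u).det)) :=
    inj_of_dvd82 W hq ⟨(mm .a).det * (mm .l).det, by rw [q0]; ring⟩
  have hul : Function.Injective (W.x ((mm .u).det * (mm .l).det)) :=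
    inj_of_dvd82 W hq ⟨(mm .a).det * (mm .q).det, by rw [q0]; ring⟩
  have hch : ∀ i : Fin 8, ∀ s t : Fin 2, ∀ c : ℂ, c = (wt0 i : ℂ) →
      c • W.x (Matrix.single s t (1 : Ach)).trace v = chi0 (i, s) (i, t) • W.x 1 v := by
    intro i s t c hc
    rw [single_trace82, hc, chi0]
    by_cases hst : s = t
    · rw [if_pos hst, if_pos (by rw [hst])]
    · rw [if_neg hst, if_neg (fun h => hst (Prod.mk.inj h).2), map_zero, LinearMap.zero_apply,
        smul_zero, zero_smul]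
  have hne : ∀ i j : Fin 8, ∀ s t : Fin 2, i ≠ j → ∀ f : Ach,
      (0 : L) = chi0 (i, s) (j, t) • W.x f v := by
    intro i j s t hij f
    rw [chi0, if_neg (fun h => hij (Prod.mk.inj h).1), zero_smul]
  simp only [List.mem_cons, Prod.mk.injEq, List.not_mem_nil, or_false] at hm
  rcases hm with ⟨rfl, rfl⟩ | ⟨rfl, rfl⟩ | ⟨rfl, rfl⟩ | ⟨rfl, rfl⟩ | ⟨rfl, rfl⟩ | ⟨rfl, rfl⟩ |
    ⟨rfl, rfl⟩ | ⟨rfl, rfl⟩ | ⟨rfl, rfl⟩ | ⟨rfl, rfl⟩ | ⟨rfl, rfl⟩ | ⟨rfl, rfl⟩ | ⟨rfl, rfl⟩ |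
    ⟨rfl, rfl⟩
  · exact semi_aux W W' hx hd v _ 1 h1 0 0 s t _ (vx00 _)
      ((hv.val00 _).trans (hch 0 s t _ (by rw [show wt0 0 = 2 from rfl]; norm_num)))
  · exact semi_aux W W' hx hd v _ 1 h1 1 1 s t _ (vx11 _)
      ((hv.val11 _).trans (hch 1 s t _ (by rw [show wt0 1 = 1 from rfl]; norm_num)))
  · refine semi_aux W W' hx hd v _ _ hqu 1 2 s t _ (vx12 _) ?_
    refine Eq.trans ?_ (hne 1 2 s t (by decide) _)
    refine hv.val12 _ _ (mm .u).det _ _ _ _ _ rfl ?_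
    rw [mul_smul_comm, ← mul_assoc]
  · exact semi_aux W W' hx hd v _ 1 h1 2 1 s t _ (vx21 _)
      ((hv.val21 _).trans (hne 2 1 s t (by decide) _))
  · exact semi_aux W W' hx hd v _ 1 h1 2 2 s t _ (vx22 _)
      ((hv.val22 _).trans (hch 2 s t _ (by rw [show wt0 2 = 1 from rfl]; norm_num)))
  · refine semi_aux W W' hx hd v _ 1 h1 3 3 s t _ (vx33 _) ((hv.val33 _).trans ?_)
    refine Eq.trans ?_ (hch 3 s t 0 (by rw [show wt0 3 = 0 from rfl]; norm_num))
    rw [zero_smul]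
  · exact semi_aux W W' hx hd v _ 1 h1 3 4 s t _ (vx34 _)
      ((hv.val34 _).trans (hne 3 4 s t (by decide) _))
  · exact semi_aux W W' hx hd v _ 1 h1 4 3 s t _ (vx43 _)
      ((hv.val43 _).trans (hne 4 3 s t (by decide) _))
  · refine semi_aux W W' hx hd v _ 1 h1 4 4 s t _ (vx44 _) ((hv.val44 _).trans ?_)
    refine Eq.trans ?_ (hch 4 s t 0 (by rw [show wt0 4 = 0 from rfl]; norm_num))
    rw [zero_smul]
  · exact semi_aux W W' hx hd v _ 1 h1 5 5 s t _ (vx55 _)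
      ((hv.val55 _).trans (hch 5 s t _ (by rw [show wt0 5 = -1 from rfl]; norm_num)))
  · refine semi_aux W W' hx hd v _ _ hul 5 6 s t _ (vx56 _) ?_
    exact Eq.trans (hv.val56 _ _ _ _ _ _) (hne 5 6 s t (by decide) _)
  · exact semi_aux W W' hx hd v _ 1 h1 6 5 s t _ (vx65 _)
      ((hv.val65 _).trans (hne 6 5 s t (by decide) _))
  · exact semi_aux W W' hx hd v _ 1 h1 6 6 s t _ (vx66 _)
      ((hv.val66 _).trans (hch 6 s t _ (by rw [show wt0 6 = -1 from rfl]; norm_num)))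
  · exact semi_aux W W' hx hd v _ 1 h1 7 7 s t _ (vx77 _)
      ((hv.val77 _).trans (hch 7 s t _ (by rw [show wt0 7 = -2 from rfl]; norm_num)))

end Pool.DM
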