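import Pool.Agent.Work.MP_c20ce7_dm.Defs

set_option autoImplicit false

/-!
# The chart of `V(2, 4, 4, 4, 2)` near the orbit of `N0`

Chart variables: twelve matrices of size `2 × 2`. With `k = κ adj(u)`, `z = adj(l) ζ` and
`g2 = [1 0; B 1]`, `g4 = [1 0; W 1]`, `G3 = [1 0; S 1] [1 -V; 0 1]`:
`x1 = g2 (a; 0)`, `x2 = G3 [p q; r 0] g2⁻¹`, `x3 = g4 diag(u, z) G3⁻¹`, `x4 = (k l) g4⁻¹`.
-/

open MvPolynomial

noncomputable section

namespace Pool.DM

/-- The names of the matrices of the chart; `ze` is `ζ`, `ka` is `κ`. -/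
inductive Bk : Type
  | a | B | q | S | u | V | W | l | p | r | ze | ka
  deriving DecidableEq

instance : Fintype Bk :=
  ⟨{.a, .B, .q, .S, .u, .V, .W, .l, .p, .r, .ze, .ka}, fun N => by cases N <;> decide⟩

/-- The chart variables. -/
abbrev Tau : Type := Bk × Fin 2 × Fin 2

/-- The polynomials in the chart variables. -/
abbrev Ach : Type := MvPolynomial Tau ℂ

/-- The matrix of the variables of a block. -/
def mm (N : Bk) : Matrix (Fin 2) (Fin 2) Ach := fun s t => X (N, s, t)

/-- The basis of the space: eight blocks of two vectors. -/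
abbrev I0 : Type := Fin 8 × Fin 2

/-- The degrees of the blocks. -/
def dg0 : Fin 8 → ℤ := ![1, 2, 2, 3, 3, 4, 4, 5]

/-- The degrees. -/
def e0 : I0 → ℤ := fun b => dg0 b.1

/-- The blocks of the parametrized point. -/
def YB (i j : Fin 8) : Matrix (Fin 2) (Fin 2) Ach :=
  if i = 1 ∧ j = 0 then mm .a
  else if i = 2 ∧ j = 0 then mm .B * mm .a
  else if i = 3 ∧ j = 1 then mm .p - mm .q * mm .B - mm .V * mm .r
  else if i = 3 ∧ j = 2 then mm .q
  else if i = 4 ∧ j = 1 then mm .S * (mm .p - mm .q * mm .B - mm .V * mm .r) + mm .r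
  else if i = 4 ∧ j = 2 then mm .S * mm .q
  else if i = 5 ∧ j = 3 then mm .u - mm .u * mm .V * mm .S
  else if i = 5 ∧ j = 4 then mm .u * mm .V
  else if i = 6 ∧ j = 3 then
    mm .W * (mm .u - mm .u * mm .V * mm .S) - (mm .l).adjugate * mm .ze * mm .S
  else if i = 6 ∧ j = 4 then mm .W * (mm .u * mm .V) + (mm .l).adjugate * mm .ze
  else if i = 7 ∧ j = 5 then mm .ka * (mm .u).adjugate - mm .l * mm .W
  else if i = 7 ∧ j = 6 then mm .l
  else 0

/-- The chart: the coordinates of `V` as polynomials in the chart variables. -/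
def Ych (k : Co e0) : Ach := YB k.1.1.1 k.1.2.1 k.1.1.2 k.1.2.2

/-- The denominator. -/
def q0 : Ach := (mm .a).det * (mm .q).det * (mm .u).det * (mm .l).det

end Pool.DM
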