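import Pool.Agent.Work.MP_c20ce7_dm82.Fr

set_option autoImplicit false
set_option linter.unusedSectionVars false

/-!
# The semi-invariant vector: the relations and their matrix form
-/

open MvPolynomial

noncomputable section

namespace Pool.DM

variable {L : Type} [AddCommGroup L] [Module ℂ L]

/-- The operator of the vector field `∑ G s t ∂_(N, s, t)`. -/
def WMod.blk (W : WMod Tau L) (N : Bk) (G : Matrix (Fin 2) (Fin 2) Ach) : Module.End ℂ L :=
  ∑ s, ∑ t, W.x (G s t) * W.d (X (N, s, t))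

/-- The vector field with the matrix coefficients `FN`. -/
def fldOf (FN : Bk → Matrix (Fin 2) (Fin 2) Ach) : Tau → Ach := fun j => FN j.1 j.2.1 j.2.2

theorem sum_Bk {M : Type} [AddCommMonoid M] (g : Bk → M) :
    ∑ N, g N = g .a + (g .B + (g .q + (g .S + (g .u + (g .V + (g .W + (g .l + (g .p + (g .r +
      (g .ze + g .ka)))))))))) := by
  change ∑ N ∈ ({.a, .B, .q, .S, .u, .V, .W, .l, .p, .r, .ze, .ka} : Finset Bk), g N = _
  rw [Finset.sum_insert (by decide), Finset.sum_insert (by decide), Finset.sum_insert (by decide),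
    Finset.sum_insert (by decide), Finset.sum_insert (by decide), Finset.sum_insert (by decide),
    Finset.sum_insert (by decide), Finset.sum_insert (by decide), Finset.sum_insert (by decide),
    Finset.sum_insert (by decide), Finset.sum_insert (by decide), Finset.sum_singleton]

theorem WMod.vf_fldOf (W : WMod Tau L) (FN : Bk → Matrix (Fin 2) (Fin 2) Ach) :
    W.vf (fldOf FN) = ∑ N, W.blk N (FN N) := by
  rw [WMod.vf, Fintype.sum_prod_type]
  refine Finset.sum_congr rfl fun N _ => ?_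
  rw [Fintype.sum_prod_type]
  rfl

/-- The row operators `∑ N_it ∂_(N_jt)`. -/
def WMod.Rg (W : WMod Tau L) (N : Bk) (i j : Fin 2) : Module.End ℂ L :=
  ∑ t, W.x (X (N, i, t)) * W.d (X (N, j, t))

/-- The column operators `∑ N_si ∂_(N_sj)`. -/
def WMod.Cg (W : WMod Tau L) (N : Bk) (i j : Fin 2) : Module.End ℂ L :=
  ∑ s, W.x (X (N, s, i)) * W.d (X (N, s, j))

theorem WMod.blk_add (W : WMod Tau L) (N : Bk) (G H : Matrix (Fin 2) (Fin 2) Ach) :
    W.blk N (G + H) = W.blk N G + W.blk N H := by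
  simp only [WMod.blk, Matrix.add_apply, map_add, add_mul, Finset.sum_add_distrib]

theorem WMod.blk_neg (W : WMod Tau L) (N : Bk) (G : Matrix (Fin 2) (Fin 2) Ach) :
    W.blk N (-G) = - W.blk N G := by
  simp only [WMod.blk, Matrix.neg_apply, map_neg, neg_mul, Finset.sum_neg_distrib]

theorem WMod.blk_sub (W : WMod Tau L) (N : Bk) (G H : Matrix (Fin 2) (Fin 2) Ach) :
    W.blk N (G - H) = W.blk N G - W.blk N H := by
  rw [sub_eq_add_neg, W.blk_add, W.blk_neg, sub_eq_add_neg]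

theorem WMod.blk_zero (W : WMod Tau L) (N : Bk) : W.blk N 0 = 0 := by
  simp [WMod.blk]

theorem WMod.blk_left (W : WMod Tau L) (N : Bk) (G : Matrix (Fin 2) (Fin 2) Ach) (v : L) :
    W.blk N (G * mm N) v = ∑ s, ∑ b, W.x (G s b) (W.Rg N b s v) := by
  simp only [WMod.blk, WMod.Rg, Fin.sum_univ_two, Matrix.mul_apply, mm, map_add, map_mul,
    LinearMap.add_apply, Module.End.mul_apply]
  abel

theorem WMod.blk_right (W : WMod Tau L) (N : Bk) (G : Matrix (Fin 2) (Fin 2) Ach) (v : L) :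
    W.blk N (mm N * G) v = ∑ b, ∑ t, W.x (G b t) (W.Cg N b t v) := by
  have h : ∀ f g : Ach, ∀ w : L, W.x f (W.x g w) = W.x g (W.x f w) := by
    intro f g w
    rw [← Module.End.mul_apply, ← map_mul, mul_comm, map_mul, Module.End.mul_apply]
  simp only [WMod.blk, WMod.Cg, Fin.sum_univ_two, Matrix.mul_apply, mm, map_add, map_mul,
    LinearMap.add_apply, Module.End.mul_apply]
  rw [h (X (N, 0, 0)) (G 0 0), h (X (N, 0, 1)) (G 1 0), h (X (N, 0, 0)) (G 0 1),
    h (X (N, 0, 1)) (G 1 1), h (X (N, 1, 0)) (G 0 0), h (X (N, 1, 1)) (G 1 0),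
    h (X (N, 1, 0)) (G 0 1), h (X (N, 1, 1)) (G 1 1)]
  abel

/-- The relations of the vector `V0 = det(a)^(-2) det(q)^(-1) det(u)^(-4) det(l)^(-2) ⊗ w`. -/
structure SemiV (W : WMod Tau L) (v : L) : Prop where
  cB : ∀ s t, W.d (X (.B, s, t)) v = 0
  cS : ∀ s t, W.d (X (.S, s, t)) v = 0
  cV : ∀ s t, W.d (X (.V, s, t)) v = 0
  cW : ∀ s t, W.d (X (.W, s, t)) v = 0
  aR : ∀ i j, W.Rg .a i j v = if i = j then (-2 : ℂ) • v else 0
  aC : ∀ i j, W.Cg .a i j v = if i = j then (-2 : ℂ) • v else 0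
  qR : ∀ i j, W.Rg .q i j v = if i = j then (-1 : ℂ) • v else 0
  qC : ∀ i j, W.Cg .q i j v = if i = j then (-1 : ℂ) • v else 0
  uR : ∀ i j, W.Rg .u i j v = if i = j then (-4 : ℂ) • v else 0
  uC : ∀ i j, W.Cg .u i j v = if i = j then (-4 : ℂ) • v else 0
  lR : ∀ i j, W.Rg .l i j v = if i = j then (-2 : ℂ) • v else 0
  lC : ∀ i j, W.Cg .l i j v = if i = j then (-2 : ℂ) • v else 0
  gE : ∀ i j, W.Cg .p i j v + W.Cg .r i j v = if i = j then (-3 : ℂ) • v else 0
  gG : ∀ i j, W.Rg .ka i j v + W.Rg .ze i j v = if i = j then (-3 : ℂ) • v else 0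
  gF1 : ∀ i j, W.Rg .p j i v = W.Cg .ka i j v
  gF2 : ∀ i j, W.Rg .r j i v = W.Cg .ze i j v
  er : W.Cg .r 0 0 v + W.Cg .r 1 1 v = (-3 : ℂ) • v
  eze : W.Rg .ze 0 0 v + W.Rg .ze 1 1 v = (-3 : ℂ) • v
  eka : W.Rg .ka 0 0 v + W.Rg .ka 1 1 v = (-3 : ℂ) • v
  zr : ∀ i j, W.x ((mm .ze * mm .r) i j) v = 0
  mpr : ∀ i j a b, W.x (X (.p, b, j) * X (.r, i, a) - X (.p, b, a) * X (.r, i, j)) v = 0
  mkz : ∀ i j a b, W.x (X (.ka, i, a) * X (.ze, b, j) - X (.ka, b, a) * X (.ze, i, j)) v = 0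

variable {W : WMod Tau L} {v : L}

theorem WMod.left_det {N : Bk} {m : ℂ} (h : ∀ i j, W.Rg N i j v = if i = j then m • v else 0)
    (G : Matrix (Fin 2) (Fin 2) Ach) : W.blk N (G * mm N) v = m • W.x G.trace v := by
  rw [W.blk_left]
  simp only [h, Fin.sum_univ_two, Matrix.trace_fin_two, map_add, LinearMap.add_apply, smul_add]
  simp

theorem WMod.right_det {N : Bk} {m : ℂ} (h : ∀ i j, W.Cg N i j v = if i = j then m • v else 0)
    (G : Matrix (Fin 2) (Fin 2) Ach) : W.blk N (mm N * G) v = m • W.x G.trace v := by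
  rw [W.blk_right]
  simp only [h, Fin.sum_univ_two, Matrix.trace_fin_two, map_add, LinearMap.add_apply, smul_add]
  simp

theorem WMod.blk_cst {N : Bk} (h : ∀ s t, W.d (X (N, s, t)) v = 0)
    (G : Matrix (Fin 2) (Fin 2) Ach) : W.blk N G v = 0 := by
  simp [WMod.blk, h]

theorem SemiV.pr (h : SemiV W v) (G : Matrix (Fin 2) (Fin 2) Ach) :
    W.blk .p (mm .p * G) v + W.blk .r (mm .r * G) v = (-3 : ℂ) • W.x G.trace v := by
  rw [W.blk_right, W.blk_right]
  simp only [← Finset.sum_add_distrib, ← map_add (W.x _), h.gE]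
  simp only [Fin.sum_univ_two, Matrix.trace_fin_two, map_add, LinearMap.add_apply, smul_add]
  simp

theorem SemiV.kz (h : SemiV W v) (G : Matrix (Fin 2) (Fin 2) Ach) :
    W.blk .ka (G * mm .ka) v + W.blk .ze (G * mm .ze) v = (-3 : ℂ) • W.x G.trace v := by
  rw [W.blk_left, W.blk_left]
  simp only [← Finset.sum_add_distrib, ← map_add (W.x _), h.gG]
  simp only [Fin.sum_univ_two, Matrix.trace_fin_two, map_add, LinearMap.add_apply, smul_add]
  simp

theorem SemiV.pk (h : SemiV W v) (G : Matrix (Fin 2) (Fin 2) Ach) :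
    W.blk .p (G * mm .p) v = W.blk .ka (mm .ka * G) v := by
  rw [W.blk_left, W.blk_right]
  simp only [h.gF1]

theorem SemiV.rz (h : SemiV W v) (G : Matrix (Fin 2) (Fin 2) Ach) :
    W.blk .r (G * mm .r) v = W.blk .ze (mm .ze * G) v := by
  rw [W.blk_left, W.blk_right]
  simp only [h.gF2]

theorem WMod.blk_smul_mm (W : WMod Tau L) (N : Bk) (g : Ach) (v : L) :
    W.blk N (g • mm N) v = W.x g (W.Rg N 0 0 v + W.Rg N 1 1 v) := by
  simp only [WMod.blk, WMod.Rg, Fin.sum_univ_two, Matrix.smul_apply, mm, smul_eq_mul, map_mul,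
    LinearMap.add_apply, Module.End.mul_apply, map_add]

theorem SemiV.ka_smul (h : SemiV W v) (g : Ach) :
    W.blk .ka (g • mm .ka) v = (-3 : ℂ) • W.x g v := by
  rw [W.blk_smul_mm, h.eka, map_smul]

theorem SemiV.ze_smul (h : SemiV W v) (g : Ach) :
    W.blk .ze (g • mm .ze) v = (-3 : ℂ) • W.x g v := by
  rw [W.blk_smul_mm, h.eze, map_smul]

theorem WMod.x_comm_apply (W : WMod Tau L) (f g : Ach) (w : L) :
    W.x f (W.x g w) = W.x g (W.x f w) := by
  rw [← Module.End.mul_apply, ← map_mul, mul_comm, map_mul, Module.End.mul_apply]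

theorem WMod.d_x_apply (W : WMod Tau L) (j : Tau) (f : Ach) (w : L) :
    W.d (X j) (W.x f w) = W.x f (W.d (X j) w) + W.x (pderiv j f) w := by
  rw [← Module.End.mul_apply, W.d_mul_x, LinearMap.add_apply, Module.End.mul_apply]

theorem WMod.blk_mid (W : WMod Tau L) (N N' N'' : Bk) (G : Matrix (Fin 2) (Fin 2) Ach) (v : L) :
    W.blk N (mm N' * G * mm N'') v = ∑ a, ∑ b, W.x (G a b)
      (∑ s, ∑ t, W.x (X (N', s, a) * X (N'', b, t)) (W.d (X (N, s, t)) v)) := by
  simp only [WMod.blk, Fin.sum_univ_two, Matrix.mul_apply, mm, map_add, map_mul,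
    LinearMap.add_apply, Module.End.mul_apply, add_mul]
  simp only [W.x_comm_apply _ (G 0 0), W.x_comm_apply _ (G 0 1), W.x_comm_apply _ (G 1 0),
    W.x_comm_apply _ (G 1 1)]
  abel

theorem SemiV.rp_key (h : SemiV W v) (a b : Fin 2) :
    ∑ s, ∑ t, W.x (X (.r, s, a) * X (.p, b, t)) (W.d (X (.r, s, t)) v) =
      - W.x (X (.p, b, a)) v := by
  have key : ∀ s t : Fin 2, W.x (X (.r, s, a) * X (.p, b, t)) (W.d (X (.r, s, t)) v) =
      W.x (X (.p, b, a)) (W.x (X (.r, s, t)) (W.d (X (.r, s, t)) v)) -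
        W.x (if t = a then X (.p, b, t) else 0) v + W.x (X (.p, b, a)) v := by
    intro s t
    have h1 := congrArg (W.d (X (.r, s, t))) (h.mpr s t a b)
    rw [map_zero, W.d_x_apply] at h1
    have h2 : pderiv (.r, s, t) (X (.p, b, t) * X (.r, s, a) - X (.p, b, a) * X (.r, s, t) : Ach) =
        (if t = a then X (.p, b, t) else 0) - X (.p, b, a) := by
      simp [Derivation.leibniz, pderiv_X, Pi.single_apply, eq_comm]
    rw [h2, map_sub, map_sub, LinearMap.sub_apply, LinearMap.sub_apply, map_mul (W.x) (X (.p, b, a)),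
      Module.End.mul_apply] at h1
    rw [mul_comm (X (Bk.r, s, a)) (X (Bk.p, b, t)), ← sub_eq_zero, ← h1]
    abel
  simp only [key, Finset.sum_add_distrib, Finset.sum_sub_distrib, ← map_sum]
  have h3 : ∑ s, ∑ t, W.x (X (.r, s, t)) (W.d (X (.r, s, t)) v) = (-3 : ℂ) • v := by
    rw [← h.er]
    simp only [WMod.Cg, Fin.sum_univ_two, LinearMap.add_apply, Module.End.mul_apply]
    abel
  rw [h3]
  simp only [Fin.sum_univ_two, map_smul]
  fin_cases a <;> simp <;> module

theorem SemiV.rp (h : SemiV W v) (G : Matrix (Fin 2) (Fin 2) Ach) :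
    W.blk .r (mm .r * G * mm .p) v = - W.x (G * mm .p).trace v := by
  rw [W.blk_mid]
  simp only [h.rp_key]
  simp only [Fin.sum_univ_two, Matrix.trace_fin_two, Matrix.mul_apply, mm, map_add, map_mul,
    LinearMap.add_apply, Module.End.mul_apply, map_neg]
  abel

theorem SemiV.kz_key (h : SemiV W v) (a b : Fin 2) :
    ∑ s, ∑ t, W.x (X (.ka, s, a) * X (.ze, b, t)) (W.d (X (.ze, s, t)) v) =
      - W.x (X (.ka, b, a)) v := by
  have key : ∀ s t : Fin 2, W.x (X (.ka, s, a) * X (.ze, b, t)) (W.d (X (.ze, s, t)) v) =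
      W.x (X (.ka, b, a)) (W.x (X (.ze, s, t)) (W.d (X (.ze, s, t)) v)) -
        W.x (if s = b then X (.ka, s, a) else 0) v + W.x (X (.ka, b, a)) v := by
    intro s t
    have h1 := congrArg (W.d (X (.ze, s, t))) (h.mkz s t a b)
    rw [map_zero, W.d_x_apply] at h1
    have h2 : pderiv (.ze, s, t) (X (.ka, s, a) * X (.ze, b, t) -
        X (.ka, b, a) * X (.ze, s, t) : Ach) =
        (if s = b then X (.ka, s, a) else 0) - X (.ka, b, a) := by
      simp [Derivation.leibniz, pderiv_X, Pi.single_apply, eq_comm]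
    rw [h2, map_sub, map_sub, LinearMap.sub_apply, LinearMap.sub_apply, map_mul (W.x) (X (.ka, b, a)),
      Module.End.mul_apply] at h1
    rw [← sub_eq_zero, ← h1]
    abel
  simp only [key, Finset.sum_add_distrib, Finset.sum_sub_distrib, ← map_sum]
  have h3 : ∑ s, ∑ t, W.x (X (.ze, s, t)) (W.d (X (.ze, s, t)) v) = (-3 : ℂ) • v := by
    rw [← h.eze]
    simp only [WMod.Rg, Fin.sum_univ_two, LinearMap.add_apply, Module.End.mul_apply]
  rw [h3]
  simp only [Fin.sum_univ_two, map_smul]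
  fin_cases b <;> simp <;> module

theorem SemiV.kcz (h : SemiV W v) (G : Matrix (Fin 2) (Fin 2) Ach) :
    W.blk .ze (mm .ka * G * mm .ze) v = - W.x (G * mm .ka).trace v := by
  rw [W.blk_mid]
  simp only [h.kz_key]
  simp only [Fin.sum_univ_two, Matrix.trace_fin_two, Matrix.mul_apply, mm, map_add, map_mul,
    LinearMap.add_apply, Module.End.mul_apply, map_neg]
  abel

/-- Terms with `ζ r` vanish. -/
theorem SemiV.zr_right (h : SemiV W v) {N : Bk} (hN : N = .p ∨ N = .ka)
    (G : Matrix (Fin 2) (Fin 2) Ach) : W.blk N (mm .ze * mm .r * G) v = 0 := by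
  have h1 : ∀ (i j s t : Fin 2) (g : Ach),
      W.x ((mm .ze * mm .r) i j * g) (W.d (X (N, s, t)) v) = 0 := by
    intro i j s t g
    have h2 := congrArg (W.d (X (N, s, t))) (h.zr i j)
    rw [map_zero, W.d_x_apply] at h2
    have h3 : pderiv (N, s, t) ((mm .ze * mm .r) i j : Ach) = 0 := by
      rcases hN with rfl | rfl <;>
        simp [Matrix.mul_apply, Fin.sum_univ_two, mm, Derivation.leibniz, pderiv_X]
    rw [h3, map_zero, LinearMap.zero_apply, add_zero] at h2
    rw [mul_comm, map_mul, Module.End.mul_apply, h2, map_zero]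
  simp only [WMod.blk, LinearMap.sum_apply, Module.End.mul_apply]
  refine Finset.sum_eq_zero fun s _ => Finset.sum_eq_zero fun t _ => ?_
  rw [Matrix.mul_apply, map_sum, LinearMap.sum_apply]
  exact Finset.sum_eq_zero fun c _ => h1 _ _ _ _ _

theorem SemiV.zr_left (h : SemiV W v) {N : Bk} (hN : N = .p ∨ N = .ka)
    (G : Matrix (Fin 2) (Fin 2) Ach) : W.blk N (G * (mm .ze * mm .r)) v = 0 := by
  have h1 : ∀ (i j s t : Fin 2) (g : Ach),
      W.x (g * (mm .ze * mm .r) i j) (W.d (X (N, s, t)) v) = 0 := by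
    intro i j s t g
    have h2 := congrArg (W.d (X (N, s, t))) (h.zr i j)
    rw [map_zero, W.d_x_apply] at h2
    have h3 : pderiv (N, s, t) ((mm .ze * mm .r) i j : Ach) = 0 := by
      rcases hN with rfl | rfl <;>
        simp [Matrix.mul_apply, Fin.sum_univ_two, mm, Derivation.leibniz, pderiv_X]
    rw [h3, map_zero, LinearMap.zero_apply, add_zero] at h2
    rw [map_mul, Module.End.mul_apply, h2, map_zero]
  simp only [WMod.blk, LinearMap.sum_apply, Module.End.mul_apply]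
  refine Finset.sum_eq_zero fun s _ => Finset.sum_eq_zero fun t _ => ?_
  rw [Matrix.mul_apply, map_sum, LinearMap.sum_apply]
  exact Finset.sum_eq_zero fun c _ => h1 _ _ _ _ _

end Pool.DM
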