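import Pool.Agent.Work.MP_c20ce7_dm82.TR

set_option autoImplicit false

/-!
# Transposition and reindexing of the basis
-/

open MvPolynomial

noncomputable section

namespace Pool.DM

/-! ## Matrices and points -/

section Mat

variable {ι : Type} [Fintype ι] [DecidableEq ι] {R : Type} [Add R] [One R]

theorem mat_of (e : ι → R) (x : Co e → ℂ) {a b : ι} (h : e a = e b + 1) :
    mat e x a b = x ⟨(a, b), h⟩ := by
  simp only [mat]
  exact dif_pos h

theorem mat_of_not (e : ι → R) (x : Co e → ℂ) {a b : ι} (h : ¬ e a = e b + 1) :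
    mat e x a b = 0 := by
  simp only [mat]
  exact dif_neg h

theorem mat_co (e : ι → R) (x : Co e → ℂ) (c : Co e) : mat e x c.1.1 c.1.2 = x c :=
  mat_of e x c.2

theorem ymat_of (e : ι → R) (ξ : Co e → ℂ) {a b : ι} (h : e a = e b + 1) :
    ymat e ξ b a = ξ ⟨(a, b), h⟩ := by
  simp only [ymat]
  exact dif_pos h

theorem ymat_of_not (e : ι → R) (ξ : Co e → ℂ) {a b : ι} (h : ¬ e a = e b + 1) :
    ymat e ξ b a = 0 := by
  simp only [ymat]
  exact dif_neg h

theorem ymat_co (e : ι → R) (ξ : Co e → ℂ) (c : Co e) : ymat e ξ c.1.2 c.1.1 = ξ c :=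
  ymat_of e ξ c.2

theorem ymat_eq (e : ι → R) (ξ : Co e → ℂ) : ymat e ξ = (mat e ξ).transpose := by
  funext b a
  rw [Matrix.transpose_apply]
  by_cases h : e a = e b + 1
  · rw [ymat_of e ξ h, mat_of e ξ h]
  · rw [ymat_of_not e ξ h, mat_of_not e ξ h]

theorem mat_injective (e : ι → R) : Function.Injective (mat e) := by
  intro x y h
  funext c
  rw [← mat_co e x c, ← mat_co e y c, h]

theorem ymat_injective (e : ι → R) : Function.Injective (ymat e) := by
  intro x y h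
  funext c
  rw [← ymat_co e x c, ← ymat_co e y c, h]

/-- The point with a given matrix. -/
def ofMat (e : ι → R) (m : Matrix ι ι ℂ) : Co e → ℂ := fun c => m c.1.1 c.1.2

theorem mat_ofMat (e : ι → R) (m : Matrix ι ι ℂ) (hm : ∀ a b, m a b ≠ 0 → e a = e b + 1) :
    mat e (ofMat e m) = m := by
  funext a b
  by_cases h : e a = e b + 1
  · rw [mat_of e _ h]
    rfl
  · rw [mat_of_not e _ h]
    by_contra h0
    exact h (hm a b (Ne.symm h0))

/-- The covector with a given matrix of degree `-1`. -/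
def ofYmat (e : ι → R) (m : Matrix ι ι ℂ) : Co e → ℂ := fun c => m c.1.2 c.1.1

theorem ymat_ofYmat (e : ι → R) (m : Matrix ι ι ℂ) (hm : ∀ a b, m a b ≠ 0 → e b = e a + 1) :
    ymat e (ofYmat e m) = m := by
  funext b a
  by_cases h : e a = e b + 1
  · rw [ymat_of e _ h]
    rfl
  · rw [ymat_of_not e _ h]
    by_contra h0
    exact h (hm b a (Ne.symm h0))

end Mat

section Xo

variable {ι : Type} [Fintype ι] [DecidableEq ι] {R : Type} [Add R] [One R] {e : ι → R}
variable {L : Type} [AddCommGroup L] [Module ℂ L]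

theorem WMod.xo_of (W : WMod (Co e) L) {a b : ι} (h : e a = e b + 1) :
    W.xo a b = W.x (X ⟨(a, b), h⟩) := by
  simp only [WMod.xo]
  exact dif_pos h

theorem WMod.xo_of_not (W : WMod (Co e) L) {a b : ι} (h : ¬ e a = e b + 1) :
    W.xo a b = 0 := by
  simp only [WMod.xo]
  exact dif_neg h

theorem WMod.dO_of (W : WMod (Co e) L) {a b : ι} (h : e a = e b + 1) :
    W.dO a b = W.d (X ⟨(a, b), h⟩) := by
  simp only [WMod.dO]
  exact dif_pos h

theorem WMod.dO_of_not (W : WMod (Co e) L) {a b : ι} (h : ¬ e a = e b + 1) :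
    W.dO a b = 0 := by
  simp only [WMod.dO]
  exact dif_neg h

end Xo

/-! ## Transposition -/

section Transpose

variable {ι : Type} [Fintype ι] [DecidableEq ι]

theorem negDeg_iff (e : ι → ℤ) (a b : ι) : negDeg e b = negDeg e a + 1 ↔ e a = e b + 1 := by
  simp only [negDeg]
  omega

/-- The transposition of the coordinates. -/
def swapCo (e : ι → ℤ) : Co e ≃ Co (negDeg e) :=
  (Equiv.prodComm ι ι).subtypeEquiv fun p => (negDeg_iff e p.1 p.2).symm

theorem swapCo_mk (e : ι → ℤ) {a b : ι} (h : e a = e b + 1) :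
    swapCo e ⟨(a, b), h⟩ = ⟨(b, a), (negDeg_iff e a b).2 h⟩ := rfl

theorem swapCo_symm_mk (e : ι → ℤ) {a b : ι} (h : negDeg e b = negDeg e a + 1) :
    (swapCo e).symm ⟨(b, a), h⟩ = ⟨(a, b), (negDeg_iff e a b).1 h⟩ := rfl

theorem mat_swap {e : ι → ℤ} {x : Co e → ℂ} {x1 : Co (negDeg e) → ℂ}
    (h : mat (negDeg e) x1 = (mat e x).transpose) : x1 ∘ swapCo e = x := by
  funext c
  obtain ⟨⟨a, b⟩, hc⟩ := c
  rw [Function.comp_apply, swapCo_mk, ← mat_of (negDeg e) x1, h, Matrix.transpose_apply,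
    mat_of e x hc]

theorem ymat_swap {e : ι → ℤ} {ξ : Co e → ℂ} {ξ1 : Co (negDeg e) → ℂ}
    (h : ymat (negDeg e) ξ1 = (ymat e ξ).transpose) : ξ1 ∘ swapCo e = ξ := by
  funext c
  obtain ⟨⟨a, b⟩, hc⟩ := c
  rw [Function.comp_apply, swapCo_mk, ← ymat_of (negDeg e) ξ1, h, Matrix.transpose_apply,
    ymat_of e ξ hc]

theorem mat_swap' {e : ι → ℤ} (x1 : Co (negDeg e) → ℂ) :
    mat (negDeg e) x1 = (mat e (x1 ∘ swapCo e)).transpose := by
  funext b a
  rw [Matrix.transpose_apply]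
  by_cases h : e a = e b + 1
  · rw [mat_of e _ h, mat_of (negDeg e) x1 ((negDeg_iff e a b).2 h), Function.comp_apply, swapCo_mk]
  · rw [mat_of_not e _ h, mat_of_not (negDeg e) x1 (fun h' => h ((negDeg_iff e a b).1 h'))]

variable {L : Type} [AddCommGroup L] [Module ℂ L] {e : ι → ℤ}

theorem WMod.xo_swap (W : WMod (Co e) L) (a b : ι) : (W.rex (swapCo e)).xo b a = W.xo a b := by
  by_cases h : e a = e b + 1
  · rw [WMod.xo_of _ ((negDeg_iff e a b).2 h), W.rex_xX, swapCo_symm_mk, W.xo_of h]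
  · rw [WMod.xo_of_not _ (fun h' => h ((negDeg_iff e a b).1 h')), W.xo_of_not h]

theorem WMod.dO_swap (W : WMod (Co e) L) (a b : ι) : (W.rex (swapCo e)).dO b a = W.dO a b := by
  by_cases h : e a = e b + 1
  · rw [WMod.dO_of _ ((negDeg_iff e a b).2 h), W.rex_dX, swapCo_symm_mk, W.dO_of h]
  · rw [WMod.dO_of_not _ (fun h' => h ((negDeg_iff e a b).1 h')), W.dO_of_not h]

theorem WMod.G_swap (W : WMod (Co e) L) (a b : ι) : (W.rex (swapCo e)).G a b = - W.G b a := by
  simp only [WMod.G, W.xo_swap, W.dO_swap, neg_sub]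

theorem mem_iSup_eigenspace_neg {f : Module.End ℂ L} {u : L}
    (h : u ∈ ⨆ n : ℤ, Module.End.eigenspace f (n : ℂ)) :
    u ∈ ⨆ n : ℤ, Module.End.eigenspace (-f) (n : ℂ) := by
  have hle : (⨆ n : ℤ, Module.End.eigenspace f (n : ℂ)) ≤
      ⨆ n : ℤ, Module.End.eigenspace (-f) (n : ℂ) := by
    refine iSup_le fun n => ?_
    refine le_trans ?_ (le_iSup (fun n : ℤ => Module.End.eigenspace (-f) (n : ℂ)) (-n))
    intro v hv
    rw [Module.End.mem_eigenspace_iff] at hv ⊢
    rw [LinearMap.neg_apply, hv, Int.cast_neg, neg_smul]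
  exact hle h

theorem LocNil.neg {f : Module.End ℂ L} (h : LocNil f) : LocNil (-f) := by
  intro u
  obtain ⟨k, hk⟩ := h u
  refine ⟨k, ?_⟩
  rw [neg_pow, Module.End.mul_apply, hk, map_zero]

theorem WMod.Equivariant.swap {W : WMod (Co e) L} (h : W.Equivariant) :
    (W.rex (swapCo e)).Equivariant := by
  refine ⟨fun a u => ?_, fun a b hab he => ?_⟩
  · rw [W.G_swap]
    exact mem_iSup_eigenspace_neg (h.diag a u)
  · rw [W.G_swap]
    refine (h.nil b a (Ne.symm hab) ?_).neg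
    simp only [negDeg] at he
    omega

end Transpose

theorem stmt_TRA : Stmt_TRA := by
  intro ι _ _ e L _ _ W hS hG hE
  refine ⟨W.rex (swapCo e), hS.rex _, hG.rex _, hE.swap, ?_, ?_⟩
  · intro x ξ x1 ξ1 h hx hξ
    refine WMod.InCh.rex ?_
    rw [mat_swap hx, ymat_swap hξ]
    exact h
  · intro Z hZ g hg
    refine (hZ.rex (f := swapCo e)) g fun x1 hx1 => hg x1 ⟨_, hx1, mat_swap' x1⟩

end Pool.DM
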