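import Pool.Agent.Work.MP_c20ce7_dm82.ChartDefs
import Pool.Agent.Work.MP_c20ce7_dm82.TR2

set_option autoImplicit false
set_option linter.unusedSectionVars false

/-!
# Vector fields in a chart
-/

open MvPolynomial

noncomputable section

namespace Pool.DM

section General

variable {τ : Type} [Fintype τ] [DecidableEq τ] {L : Type} [AddCommGroup L] [Module ℂ L]

/-- The operator of the vector field with the coefficients `F`. -/
def WMod.vf (W : WMod τ L) (F : τ → MvPolynomial τ ℂ) : Module.End ℂ L :=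
  ∑ j, W.x (F j) * W.d (X j)

/-- The derivation of the vector field with the coefficients `F`. -/
def dlt (F : τ → MvPolynomial τ ℂ) :
    Derivation ℂ (MvPolynomial τ ℂ) (MvPolynomial τ ℂ) := mkDerivation ℂ F

theorem dlt_X (F : τ → MvPolynomial τ ℂ) (j : τ) : dlt F (X j) = F j :=
  mkDerivation_X ℂ F j

theorem dlt_eq (F : τ → MvPolynomial τ ℂ) (g : MvPolynomial τ ℂ) :
    dlt F g = ∑ j, F j * pderiv j g := by
  induction g using MvPolynomial.induction_on with
  | C a => simp [dlt]
  | add p q hp hq => simp only [map_add, hp, hq, mul_add, Finset.sum_add_distrib]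
  | mul_X p i hp =>
    rw [Derivation.leibniz, dlt_X, hp]
    have h : ∀ j, F j * pderiv j (p * X i) = p * (F j * pderiv j (X i)) + X i * (F j * pderiv j p) := by
      intro j
      rw [Derivation.leibniz, smul_eq_mul, smul_eq_mul]
      ring
    simp only [h, Finset.sum_add_distrib, ← Finset.mul_sum, smul_eq_mul]
    congr 2
    rw [Finset.sum_eq_single i]
    · rw [pderiv_X_self, mul_one]
    · intro j _ hj
      rw [pderiv_X_of_ne hj.symm, mul_zero]
    · intro hi
      exact absurd (Finset.mem_univ i) hi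

/-- The derivation on matrices. -/
def dmat {n m : Type} (D : Derivation ℂ (MvPolynomial τ ℂ) (MvPolynomial τ ℂ))
    (M : Matrix n m (MvPolynomial τ ℂ)) : Matrix n m (MvPolynomial τ ℂ) := fun s t => D (M s t)

variable {ι : Type} [Fintype ι] [DecidableEq ι] {R : Type} [Add R] [One R] {e : ι → R}

theorem sum_co82 (W' : WMod (Co e) L) (T : ι → ι → Module.End ℂ L) :
    ∑ k : Co e, T k.1.1 k.1.2 * W'.d (X k) = ∑ a, ∑ b, T a b * W'.dO a b := by
  classical
  rw [← Fintype.sum_prod_type' (f := fun a b => T a b * W'.dO a b)]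
  have h1 : ∑ p : ι × ι, T p.1 p.2 * W'.dO p.1 p.2 =
      ∑ p ∈ Finset.univ.filter (fun p : ι × ι => e p.1 = e p.2 + 1),
        T p.1 p.2 * W'.dO p.1 p.2 := by
    rw [Finset.sum_filter]
    refine Finset.sum_congr rfl fun p _ => ?_
    split_ifs with h
    · rfl
    · rw [W'.dO_of_not h, mul_zero]
  rw [h1, Finset.sum_subtype _ (p := fun p : ι × ι => e p.1 = e p.2 + 1) (by simp)]
  refine Finset.sum_congr rfl fun k _ => ?_
  rw [W'.dO_of k.2]

/-- The matrix of the coordinate functions. -/
def Ymt (e : ι → R) (Y : Co e → MvPolynomial τ ℂ) : Matrix ι ι (MvPolynomial τ ℂ) := by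
  classical exact fun a b => if h : e a = e b + 1 then Y ⟨(a, b), h⟩ else 0

theorem Ymt_co (Y : Co e → MvPolynomial τ ℂ) (k : Co e) : Ymt e Y k.1.1 k.1.2 = Y k := by
  simp only [Ymt]
  exact dif_pos k.2

/-- **Vector fields in a chart.** If the derivation with the coefficients `F` maps the point `Y` of the chart to
`f [E_{ab}, Y]` then it acts as `f G_{ab}`. -/
theorem WMod.G_chart (W : WMod τ L) (W' : WMod (Co e) L) (Y : Co e → MvPolynomial τ ℂ)
    (hx : ∀ k, W'.x (X k) = W.x (Y k))
    (hd : ∀ j, W.d (X j) = ∑ k, W.x (pderiv j (Y k)) * W'.d (X k))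
    (F : τ → MvPolynomial τ ℂ) (f : MvPolynomial τ ℂ) (a b : ι)
    (hF : ∀ k : Co e, dlt F (Y k) = f * ((if k.1.1 = a then Ymt e Y b k.1.2 else 0) -
      (if k.1.2 = b then Ymt e Y k.1.1 a else 0))) :
    W.x f * W'.G a b = W.vf F := by
  have h1 : W.vf F = ∑ k, W.x (dlt F (Y k)) * W'.d (X k) := by
    simp only [WMod.vf, hd, dlt_eq, map_sum, map_mul, Finset.mul_sum, Finset.sum_mul]
    rw [Finset.sum_comm]
    simp only [mul_assoc]
  have hxo : ∀ c d, W'.xo c d = W.x (Ymt e Y c d) := by
    intro c d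
    by_cases h : e c = e d + 1
    · rw [W'.xo_of h, hx]
      congr 1
      simp only [Ymt]
      rw [dif_pos h]
    · rw [W'.xo_of_not h]
      simp only [Ymt]
      rw [dif_neg h, map_zero]
  have h2 : ∀ k : Co e, W.x (dlt F (Y k)) * W'.d (X k) = W.x f *
      (((fun c d => (if c = a then W'.xo b d else 0) - (if d = b then W'.xo c a else 0)) :
        ι → ι → Module.End ℂ L) k.1.1 k.1.2 * W'.d (X k)) := by
    intro k
    rw [hF, map_mul, mul_assoc]
    congr 2
    rw [map_sub]
    congr 1
    · split_ifs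
      · rw [hxo]
      · rw [map_zero]
    · split_ifs
      · rw [hxo]
      · rw [map_zero]
  rw [h1]
  simp only [h2]
  rw [← Finset.mul_sum]
  have h3 := sum_co82 W' (fun c d => (if c = a then W'.xo b d else 0) - (if d = b then W'.xo c a else 0))
  rw [h3]
  congr 1
  simp only [WMod.G, sub_mul, Finset.sum_sub_distrib, ite_mul, zero_mul, Finset.sum_ite_eq',
    Finset.mem_univ, if_true]
  congr 1
  rw [Finset.sum_comm]
  simp

end General


end Pool.DM
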