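import Pool.Agent.Work.MP_c20ce7_dm82.FrB

set_option autoImplicit false
set_option linter.unusedSectionVars false

/-!
# The semi-invariant vector: block form of the vector fields
-/

open MvPolynomial

noncomputable section

namespace Pool.DM

variable {L : Type} [AddCommGroup L] [Module ℂ L]

/-- The derivation with matrix coefficients `FN`, on matrices. -/
def dm (FN : Bk → Matrix (Fin 2) (Fin 2) Ach) (M : Matrix (Fin 2) (Fin 2) Ach) :
    Matrix (Fin 2) (Fin 2) Ach := dmat (dlt (fldOf FN)) M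

theorem dm_apply (FN : Bk → Matrix (Fin 2) (Fin 2) Ach) (M : Matrix (Fin 2) (Fin 2) Ach)
    (s t : Fin 2) : dm FN M s t = dlt (fldOf FN) (M s t) := rfl

theorem dm_mm (FN : Bk → Matrix (Fin 2) (Fin 2) Ach) (N : Bk) : dm FN (mm N) = FN N := by
  ext s t : 2
  rw [dm_apply, mm, dlt_X, fldOf]

theorem dm_add (FN : Bk → Matrix (Fin 2) (Fin 2) Ach) (A B : Matrix (Fin 2) (Fin 2) Ach) :
    dm FN (A + B) = dm FN A + dm FN B := by
  ext s t : 2
  rw [dm_apply, Matrix.add_apply, map_add, Matrix.add_apply, dm_apply, dm_apply]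

theorem dm_sub (FN : Bk → Matrix (Fin 2) (Fin 2) Ach) (A B : Matrix (Fin 2) (Fin 2) Ach) :
    dm FN (A - B) = dm FN A - dm FN B := by
  ext s t : 2
  rw [dm_apply, Matrix.sub_apply, map_sub, Matrix.sub_apply, dm_apply, dm_apply]

theorem dm_mul (FN : Bk → Matrix (Fin 2) (Fin 2) Ach) (A B : Matrix (Fin 2) (Fin 2) Ach) :
    dm FN (A * B) = dm FN A * B + A * dm FN B := by
  ext s t : 2
  simp only [dm_apply, Matrix.mul_apply, Matrix.add_apply, Fin.sum_univ_two, map_add,
    Derivation.leibniz, smul_eq_mul]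
  ring_nf

theorem dm_adj (FN : Bk → Matrix (Fin 2) (Fin 2) Ach) (A : Matrix (Fin 2) (Fin 2) Ach) :
    dm FN A.adjugate = (dm FN A).adjugate := by
  ext s t : 2
  rw [dm_apply, Matrix.adjugate_fin_two, Matrix.adjugate_fin_two]
  fin_cases s <;> fin_cases t <;> simp [dm_apply]

theorem dm_zero (FN : Bk → Matrix (Fin 2) (Fin 2) Ach) : dm FN 0 = 0 := by
  ext s t : 2
  rw [dm_apply, Matrix.zero_apply, map_zero]

/-- The degree of the blocks of the point. -/
theorem YB_deg {i j : Fin 8} (h : ¬ dg0 i = dg0 j + 1) : YB i j = 0 := by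
  have key : ∀ a b : Fin 8, dg0 a = dg0 b + 1 → ¬ (i = a ∧ j = b) := by
    rintro a b hab ⟨rfl, rfl⟩
    exact h hab
  rw [YB, if_neg (key 1 0 (by decide)), if_neg (key 2 0 (by decide)), if_neg (key 3 1 (by decide)),
    if_neg (key 3 2 (by decide)), if_neg (key 4 1 (by decide)), if_neg (key 4 2 (by decide)),
    if_neg (key 5 3 (by decide)), if_neg (key 5 4 (by decide)), if_neg (key 6 3 (by decide)),
    if_neg (key 6 4 (by decide)), if_neg (key 7 5 (by decide)), if_neg (key 7 6 (by decide))]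

theorem Ymt_ch (i j : Fin 8) (s t : Fin 2) : Ymt e0 Ych (i, s) (j, t) = YB i j s t := by
  simp only [Ymt]
  by_cases h : dg0 i = dg0 j + 1
  · rw [dif_pos (show e0 (i, s) = e0 (j, t) + 1 from h)]
    rfl
  · rw [dif_neg (show ¬ e0 (i, s) = e0 (j, t) + 1 from h), YB_deg h, Matrix.zero_apply]

/-- Block form of the equation of the field. -/
def FldEq (FN : Bk → Matrix (Fin 2) (Fin 2) Ach) (f : Ach) (i j : Fin 8)
    (h : Matrix (Fin 2) (Fin 2) Ach) : Prop :=
  ∀ i' l' : Fin 8, dg0 i' = dg0 l' + 1 → dm FN (YB i' l') =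
    f • ((if i' = i then h * YB j l' else 0) - (if l' = j then YB i' i * h else 0))

theorem WMod.G_ch (W : WMod Tau L) (W' : WMod (Co e0) L)
    (hx : ∀ k, W'.x (X k) = W.x (Ych k))
    (hd : ∀ j, W.d (X j) = ∑ k, W.x (pderiv j (Ych k)) * W'.d (X k))
    (FN : Bk → Matrix (Fin 2) (Fin 2) Ach) (f : Ach) (i j : Fin 8) (s t : Fin 2)
    (hF : FldEq FN f i j (Matrix.single s t 1)) :
    W.x f * W'.G (i, s) (j, t) = ∑ N, W.blk N (FN N) := by
  rw [← WMod.vf_fldOf]
  refine W.G_chart W' Ych hx hd (fldOf FN) f (i, s) (j, t) ?_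
  rintro ⟨⟨⟨i', s'⟩, ⟨l', t'⟩⟩, hk⟩
  have h1 := congrFun (congrFun (hF i' l' hk) s') t'
  rw [dm_apply, Matrix.smul_apply, smul_eq_mul, Matrix.sub_apply] at h1
  rw [show Ych ⟨((i', s'), (l', t')), hk⟩ = YB i' l' s' t' from rfl, h1]
  simp only [Ymt_ch, Prod.mk.injEq]
  congr 2
  · by_cases hi : i' = i
    · rw [if_pos hi]
      by_cases hs : s' = s
      · rw [if_pos ⟨hi, hs⟩, hs, Matrix.single_mul_apply_same, one_mul]
      · rw [if_neg (fun h => hs h.2), Matrix.single_mul_apply_of_ne _ _ _ _ _ hs]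
    · rw [if_neg hi, if_neg (fun h => hi h.1), Matrix.zero_apply]
  · by_cases hl : l' = j
    · rw [if_pos hl]
      by_cases hs : t' = t
      · rw [if_pos ⟨hl, hs⟩, hs, Matrix.mul_single_apply_same, mul_one]
      · rw [if_neg (fun h => hs h.2), Matrix.mul_single_apply_of_ne]
        exact hs
    · rw [if_neg hl, if_neg (fun h => hl h.1), Matrix.zero_apply]

/-- The twelve equations. -/
theorem fldEq_of {FN : Bk → Matrix (Fin 2) (Fin 2) Ach} {f : Ach} {i j : Fin 8}
    {h : Matrix (Fin 2) (Fin 2) Ach}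
    (E : ∀ i' l' : Fin 8, (i', l') ∈ ([(1, 0), (2, 0), (3, 1), (3, 2), (4, 1), (4, 2), (5, 3), (5, 4),
      (6, 3), (6, 4), (7, 5), (7, 6)] : List (Fin 8 × Fin 8)) → dm FN (YB i' l') =
        f • ((if i' = i then h * YB j l' else 0) - (if l' = j then YB i' i * h else 0))) :
    FldEq FN f i j h := by
  intro i' l' hd
  apply E
  revert i' l'
  decide

theorem yb82_10 : YB 1 0 = mm .a := rfl
theorem yb82_20 : YB 2 0 = mm .B * mm .a := rfl
theorem yb82_31 : YB 3 1 = mm .p - mm .q * mm .B - mm .V * mm .r := rfl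
theorem yb82_32 : YB 3 2 = mm .q := rfl
theorem yb82_41 : YB 4 1 = mm .S * (mm .p - mm .q * mm .B - mm .V * mm .r) + mm .r := rfl
theorem yb82_42 : YB 4 2 = mm .S * mm .q := rfl
theorem yb82_53 : YB 5 3 = mm .u - mm .u * mm .V * mm .S := rfl
theorem yb82_54 : YB 5 4 = mm .u * mm .V := rfl
theorem yb82_63 : YB 6 3 = mm .W * (mm .u - mm .u * mm .V * mm .S) -
    (mm .l).adjugate * mm .ze * mm .S := rfl
theorem yb82_64 : YB 6 4 = mm .W * (mm .u * mm .V) + (mm .l).adjugate * mm .ze := rfl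
theorem yb82_75 : YB 7 5 = mm .ka * (mm .u).adjugate - mm .l * mm .W := rfl
theorem yb82_76 : YB 7 6 = mm .l := rfl

/-- A family of matrices given by the twelve matrices. -/
def fnOf (a B q S u V W l p r ze ka : Matrix (Fin 2) (Fin 2) Ach) :
    Bk → Matrix (Fin 2) (Fin 2) Ach
  | .a => a
  | .B => B
  | .q => q
  | .S => S
  | .u => u
  | .V => V
  | .W => W
  | .l => l
  | .p => p
  | .r => r
  | .ze => ze
  | .ka => ka

theorem fn_a (a B q S u V W l p r ze ka : Matrix (Fin 2) (Fin 2) Ach) :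
    fnOf a B q S u V W l p r ze ka .a = a := rfl

theorem adj0_82 : (0 : Matrix (Fin 2) (Fin 2) Ach).adjugate = 0 := by
  rw [Matrix.adjugate_fin_two]
  ext s t : 2
  fin_cases s <;> fin_cases t <;> simp

theorem adj_neg82 (A : Matrix (Fin 2) (Fin 2) Ach) : (-A).adjugate = -A.adjugate := by
  rw [Matrix.adjugate_fin_two, Matrix.adjugate_fin_two]
  ext s t : 2
  fin_cases s <;> fin_cases t <;> simp

theorem adj_add82 (A B : Matrix (Fin 2) (Fin 2) Ach) :
    (A + B).adjugate = A.adjugate + B.adjugate := by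
  rw [Matrix.adjugate_fin_two, Matrix.adjugate_fin_two, Matrix.adjugate_fin_two]
  ext s t : 2
  fin_cases s <;> fin_cases t <;> simp [add_comm]

theorem adj_sub82 (A B : Matrix (Fin 2) (Fin 2) Ach) :
    (A - B).adjugate = A.adjugate - B.adjugate := by
  rw [sub_eq_add_neg, adj_add82, adj_neg82, sub_eq_add_neg]

theorem adj_smul82 (c : Ach) (A : Matrix (Fin 2) (Fin 2) Ach) :
    (c • A).adjugate = c • A.adjugate := by
  rw [Matrix.adjugate_fin_two, Matrix.adjugate_fin_two]
  ext s t : 2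
  fin_cases s <;> fin_cases t <;> simp

/-- For `2 × 2` matrices `adj A = tr A - A`. -/
theorem adj_tr82 (A : Matrix (Fin 2) (Fin 2) Ach) : A.adjugate = A.trace • 1 - A := by
  rw [Matrix.adjugate_fin_two, Matrix.trace_fin_two]
  ext s t : 2
  fin_cases s <;> fin_cases t <;> simp

theorem adj_mulR (A X : Matrix (Fin 2) (Fin 2) Ach) : A.adjugate * (A * X) = A.det • X := by
  rw [← mul_assoc, Matrix.adjugate_mul, smul_mul_assoc, one_mul]

theorem mul_adjR (A X : Matrix (Fin 2) (Fin 2) Ach) : A * (A.adjugate * X) = A.det • X := by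
  rw [← mul_assoc, Matrix.mul_adjugate, smul_mul_assoc, one_mul]

end Pool.DM
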