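import Pool.Agent.Work.MP_c20ce7_dm82.FrC

set_option autoImplicit false
set_option linter.unusedSectionVars false
set_option linter.unusedSimpArgs false
set_option linter.unusedTactic false
set_option linter.unreachableTactic false

/-!
# The semi-invariant vector: the vector fields of the block pairs
-/

open MvPolynomial

noncomputable section

namespace Pool.DM

theorem vx00 (h : Matrix (Fin 2) (Fin 2) Ach) :
    FldEq (fnOf (-(mm .a * h)) 0 0 0 0 0 0 0 0 0 0 0) 1 0 0 h := by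
  refine fldEq_of fun i' l' hm => ?_
  simp only [List.mem_cons, Prod.mk.injEq, List.not_mem_nil, or_false] at hm
  rcases hm with ⟨rfl, rfl⟩ | ⟨rfl, rfl⟩ | ⟨rfl, rfl⟩ | ⟨rfl, rfl⟩ | ⟨rfl, rfl⟩ | ⟨rfl, rfl⟩ |
    ⟨rfl, rfl⟩ | ⟨rfl, rfl⟩ | ⟨rfl, rfl⟩ | ⟨rfl, rfl⟩ | ⟨rfl, rfl⟩ | ⟨rfl, rfl⟩
  all_goals simp only [yb82_10, yb82_20, yb82_31, yb82_32, yb82_41, yb82_42, yb82_53, yb82_54, yb82_63, yb82_64, yb82_75, yb82_76,
      dm_add, dm_sub, dm_mul, dm_adj, dm_mm, fnOf, one_smul, adj0_82]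
  all_goals try simp (decide := true) only [if_true, if_false, yb82_10, yb82_20, yb82_31, yb82_32, yb82_41, yb82_42,
      yb82_53, yb82_54, yb82_63, yb82_64, yb82_75, yb82_76]
  all_goals try noncomm_ring

theorem vx11 (h : Matrix (Fin 2) (Fin 2) Ach) :
    FldEq (fnOf (h * mm .a) (-(mm .B * h)) 0 0 0 0 0 0 (-(mm .p * h)) (-(mm .r * h)) 0 0) 1 1 1 h := by
  refine fldEq_of fun i' l' hm => ?_
  simp only [List.mem_cons, Prod.mk.injEq, List.not_mem_nil, or_false] at hm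
  rcases hm with ⟨rfl, rfl⟩ | ⟨rfl, rfl⟩ | ⟨rfl, rfl⟩ | ⟨rfl, rfl⟩ | ⟨rfl, rfl⟩ | ⟨rfl, rfl⟩ |
    ⟨rfl, rfl⟩ | ⟨rfl, rfl⟩ | ⟨rfl, rfl⟩ | ⟨rfl, rfl⟩ | ⟨rfl, rfl⟩ | ⟨rfl, rfl⟩
  all_goals simp only [yb82_10, yb82_20, yb82_31, yb82_32, yb82_41, yb82_42, yb82_53, yb82_54, yb82_63, yb82_64, yb82_75, yb82_76,
      dm_add, dm_sub, dm_mul, dm_adj, dm_mm, fnOf, one_smul, adj0_82]
  all_goals try simp (decide := true) only [if_true, if_false, yb82_10, yb82_20, yb82_31, yb82_32, yb82_41, yb82_42,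
      yb82_53, yb82_54, yb82_63, yb82_64, yb82_75, yb82_76]
  all_goals try noncomm_ring

theorem vx21 (h : Matrix (Fin 2) (Fin 2) Ach) :
    FldEq (fnOf 0 (h) 0 0 0 0 0 0 0 0 0 0) 1 2 1 h := by
  refine fldEq_of fun i' l' hm => ?_
  simp only [List.mem_cons, Prod.mk.injEq, List.not_mem_nil, or_false] at hm
  rcases hm with ⟨rfl, rfl⟩ | ⟨rfl, rfl⟩ | ⟨rfl, rfl⟩ | ⟨rfl, rfl⟩ | ⟨rfl, rfl⟩ | ⟨rfl, rfl⟩ |
    ⟨rfl, rfl⟩ | ⟨rfl, rfl⟩ | ⟨rfl, rfl⟩ | ⟨rfl, rfl⟩ | ⟨rfl, rfl⟩ | ⟨rfl, rfl⟩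
  all_goals simp only [yb82_10, yb82_20, yb82_31, yb82_32, yb82_41, yb82_42, yb82_53, yb82_54, yb82_63, yb82_64, yb82_75, yb82_76,
      dm_add, dm_sub, dm_mul, dm_adj, dm_mm, fnOf, one_smul, adj0_82]
  all_goals try simp (decide := true) only [if_true, if_false, yb82_10, yb82_20, yb82_31, yb82_32, yb82_41, yb82_42,
      yb82_53, yb82_54, yb82_63, yb82_64, yb82_75, yb82_76]
  all_goals try noncomm_ring

theorem vx22 (h : Matrix (Fin 2) (Fin 2) Ach) :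
    FldEq (fnOf 0 (h * mm .B) (-(mm .q * h)) 0 0 0 0 0 0 0 0 0) 1 2 2 h := by
  refine fldEq_of fun i' l' hm => ?_
  simp only [List.mem_cons, Prod.mk.injEq, List.not_mem_nil, or_false] at hm
  rcases hm with ⟨rfl, rfl⟩ | ⟨rfl, rfl⟩ | ⟨rfl, rfl⟩ | ⟨rfl, rfl⟩ | ⟨rfl, rfl⟩ | ⟨rfl, rfl⟩ |
    ⟨rfl, rfl⟩ | ⟨rfl, rfl⟩ | ⟨rfl, rfl⟩ | ⟨rfl, rfl⟩ | ⟨rfl, rfl⟩ | ⟨rfl, rfl⟩
  all_goals simp only [yb82_10, yb82_20, yb82_31, yb82_32, yb82_41, yb82_42, yb82_53, yb82_54, yb82_63, yb82_64, yb82_75, yb82_76,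
      dm_add, dm_sub, dm_mul, dm_adj, dm_mm, fnOf, one_smul, adj0_82]
  all_goals try simp (decide := true) only [if_true, if_false, yb82_10, yb82_20, yb82_31, yb82_32, yb82_41, yb82_42,
      yb82_53, yb82_54, yb82_63, yb82_64, yb82_75, yb82_76]
  all_goals try noncomm_ring

theorem vx33 (h : Matrix (Fin 2) (Fin 2) Ach) :
    FldEq (fnOf 0 0 (h * mm .q) (-(mm .S * h)) (-(mm .u * h)) (h * mm .V) 0 0 (h * mm .p) 0 0 (h.trace • mm .ka - mm .ka * h)) 1 3 3 h := by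
  refine fldEq_of fun i' l' hm => ?_
  simp only [List.mem_cons, Prod.mk.injEq, List.not_mem_nil, or_false] at hm
  rcases hm with ⟨rfl, rfl⟩ | ⟨rfl, rfl⟩ | ⟨rfl, rfl⟩ | ⟨rfl, rfl⟩ | ⟨rfl, rfl⟩ | ⟨rfl, rfl⟩ |
    ⟨rfl, rfl⟩ | ⟨rfl, rfl⟩ | ⟨rfl, rfl⟩ | ⟨rfl, rfl⟩ | ⟨rfl, rfl⟩ | ⟨rfl, rfl⟩
  all_goals simp only [yb82_10, yb82_20, yb82_31, yb82_32, yb82_41, yb82_42, yb82_53, yb82_54, yb82_63, yb82_64, yb82_75, yb82_76,
      dm_add, dm_sub, dm_mul, dm_adj, dm_mm, fnOf, one_smul, adj0_82]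
  all_goals try simp (decide := true) only [if_true, if_false, yb82_10, yb82_20, yb82_31, yb82_32, yb82_41, yb82_42,
      yb82_53, yb82_54, yb82_63, yb82_64, yb82_75, yb82_76]
  all_goals try simp only [adj_sub82, adj_add82, adj_neg82, adj_smul82,
      Matrix.adjugate_mul_distrib (mm .u), Matrix.adjugate_mul_distrib (mm .l),
      Matrix.adjugate_mul_distrib h (mm .u), Matrix.adjugate_mul_distrib h (mm .l)]
  all_goals try simp only [adj_tr82 h, adj_tr82 (mm .S * h), adj_tr82 (h * mm .S)]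
  all_goals try simp only [mul_add, add_mul, mul_sub, sub_mul, mul_neg, neg_mul, mul_assoc,
      smul_mul_assoc, mul_smul_comm, smul_add, smul_sub, smul_neg, one_mul, mul_one, mul_zero,
      zero_mul]
  all_goals try abel

theorem vx44 (h : Matrix (Fin 2) (Fin 2) Ach) :
    FldEq (fnOf 0 0 0 (h * mm .S) 0 (-(mm .V * h)) 0 0 0 (h * mm .r) (-(mm .ze * h)) 0) 1 4 4 h := by
  refine fldEq_of fun i' l' hm => ?_
  simp only [List.mem_cons, Prod.mk.injEq, List.not_mem_nil, or_false] at hm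
  rcases hm with ⟨rfl, rfl⟩ | ⟨rfl, rfl⟩ | ⟨rfl, rfl⟩ | ⟨rfl, rfl⟩ | ⟨rfl, rfl⟩ | ⟨rfl, rfl⟩ |
    ⟨rfl, rfl⟩ | ⟨rfl, rfl⟩ | ⟨rfl, rfl⟩ | ⟨rfl, rfl⟩ | ⟨rfl, rfl⟩ | ⟨rfl, rfl⟩
  all_goals simp only [yb82_10, yb82_20, yb82_31, yb82_32, yb82_41, yb82_42, yb82_53, yb82_54, yb82_63, yb82_64, yb82_75, yb82_76,
      dm_add, dm_sub, dm_mul, dm_adj, dm_mm, fnOf, one_smul, adj0_82]
  all_goals try simp (decide := true) only [if_true, if_false, yb82_10, yb82_20, yb82_31, yb82_32, yb82_41, yb82_42,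
      yb82_53, yb82_54, yb82_63, yb82_64, yb82_75, yb82_76]
  all_goals try noncomm_ring

theorem vx43 (h : Matrix (Fin 2) (Fin 2) Ach) :
    FldEq (fnOf 0 0 0 (h) 0 0 0 0 0 0 0 0) 1 4 3 h := by
  refine fldEq_of fun i' l' hm => ?_
  simp only [List.mem_cons, Prod.mk.injEq, List.not_mem_nil, or_false] at hm
  rcases hm with ⟨rfl, rfl⟩ | ⟨rfl, rfl⟩ | ⟨rfl, rfl⟩ | ⟨rfl, rfl⟩ | ⟨rfl, rfl⟩ | ⟨rfl, rfl⟩ |
    ⟨rfl, rfl⟩ | ⟨rfl, rfl⟩ | ⟨rfl, rfl⟩ | ⟨rfl, rfl⟩ | ⟨rfl, rfl⟩ | ⟨rfl, rfl⟩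
  all_goals simp only [yb82_10, yb82_20, yb82_31, yb82_32, yb82_41, yb82_42, yb82_53, yb82_54, yb82_63, yb82_64, yb82_75, yb82_76,
      dm_add, dm_sub, dm_mul, dm_adj, dm_mm, fnOf, one_smul, adj0_82]
  all_goals try simp (decide := true) only [if_true, if_false, yb82_10, yb82_20, yb82_31, yb82_32, yb82_41, yb82_42,
      yb82_53, yb82_54, yb82_63, yb82_64, yb82_75, yb82_76]
  all_goals try noncomm_ring

theorem vx34 (h : Matrix (Fin 2) (Fin 2) Ach) :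
    FldEq (fnOf 0 0 (h * mm .S * mm .q) (-(mm .S * h * mm .S)) (-(mm .u * (h * mm .S))) (h * mm .S * mm .V + mm .V * mm .S * h - h) 0 0 (h * mm .S * mm .p) (-(mm .S * h * mm .r)) (mm .ze * (mm .S * h)) ((h * mm .S).trace • mm .ka - mm .ka * (h * mm .S))) 1 3 4 h := by
  refine fldEq_of fun i' l' hm => ?_
  simp only [List.mem_cons, Prod.mk.injEq, List.not_mem_nil, or_false] at hm
  rcases hm with ⟨rfl, rfl⟩ | ⟨rfl, rfl⟩ | ⟨rfl, rfl⟩ | ⟨rfl, rfl⟩ | ⟨rfl, rfl⟩ | ⟨rfl, rfl⟩ |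
    ⟨rfl, rfl⟩ | ⟨rfl, rfl⟩ | ⟨rfl, rfl⟩ | ⟨rfl, rfl⟩ | ⟨rfl, rfl⟩ | ⟨rfl, rfl⟩
  all_goals simp only [yb82_10, yb82_20, yb82_31, yb82_32, yb82_41, yb82_42, yb82_53, yb82_54, yb82_63, yb82_64, yb82_75, yb82_76,
      dm_add, dm_sub, dm_mul, dm_adj, dm_mm, fnOf, one_smul, adj0_82]
  all_goals try simp (decide := true) only [if_true, if_false, yb82_10, yb82_20, yb82_31, yb82_32, yb82_41, yb82_42,
      yb82_53, yb82_54, yb82_63, yb82_64, yb82_75, yb82_76]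
  all_goals try simp only [adj_sub82, adj_add82, adj_neg82, adj_smul82,
      Matrix.adjugate_mul_distrib (mm .u), Matrix.adjugate_mul_distrib (mm .l),
      Matrix.adjugate_mul_distrib h (mm .u), Matrix.adjugate_mul_distrib h (mm .l)]
  all_goals try simp only [adj_tr82 h, adj_tr82 (mm .S * h), adj_tr82 (h * mm .S)]
  all_goals try simp only [mul_add, add_mul, mul_sub, sub_mul, mul_neg, neg_mul, mul_assoc,
      smul_mul_assoc, mul_smul_comm, smul_add, smul_sub, smul_neg, one_mul, mul_one, mul_zero,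
      zero_mul]
  all_goals try abel

theorem vx55 (h : Matrix (Fin 2) (Fin 2) Ach) :
    FldEq (fnOf 0 0 0 0 (h * mm .u) 0 (-(mm .W * h)) 0 0 0 0 (-(h.trace • mm .ka))) 1 5 5 h := by
  refine fldEq_of fun i' l' hm => ?_
  simp only [List.mem_cons, Prod.mk.injEq, List.not_mem_nil, or_false] at hm
  rcases hm with ⟨rfl, rfl⟩ | ⟨rfl, rfl⟩ | ⟨rfl, rfl⟩ | ⟨rfl, rfl⟩ | ⟨rfl, rfl⟩ | ⟨rfl, rfl⟩ |
    ⟨rfl, rfl⟩ | ⟨rfl, rfl⟩ | ⟨rfl, rfl⟩ | ⟨rfl, rfl⟩ | ⟨rfl, rfl⟩ | ⟨rfl, rfl⟩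
  all_goals simp only [yb82_10, yb82_20, yb82_31, yb82_32, yb82_41, yb82_42, yb82_53, yb82_54, yb82_63, yb82_64, yb82_75, yb82_76,
      dm_add, dm_sub, dm_mul, dm_adj, dm_mm, fnOf, one_smul, adj0_82]
  all_goals try simp (decide := true) only [if_true, if_false, yb82_10, yb82_20, yb82_31, yb82_32, yb82_41, yb82_42,
      yb82_53, yb82_54, yb82_63, yb82_64, yb82_75, yb82_76]
  all_goals try simp only [adj_sub82, adj_add82, adj_neg82, adj_smul82,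
      Matrix.adjugate_mul_distrib (mm .u), Matrix.adjugate_mul_distrib (mm .l),
      Matrix.adjugate_mul_distrib h (mm .u), Matrix.adjugate_mul_distrib h (mm .l)]
  all_goals try simp only [adj_tr82 h, adj_tr82 (mm .S * h), adj_tr82 (h * mm .S)]
  all_goals try simp only [mul_add, add_mul, mul_sub, sub_mul, mul_neg, neg_mul, mul_assoc,
      smul_mul_assoc, mul_smul_comm, smul_add, smul_sub, smul_neg, one_mul, mul_one, mul_zero,
      zero_mul]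
  all_goals try abel

theorem vx65 (h : Matrix (Fin 2) (Fin 2) Ach) :
    FldEq (fnOf 0 0 0 0 0 0 (h) 0 0 0 0 0) 1 6 5 h := by
  refine fldEq_of fun i' l' hm => ?_
  simp only [List.mem_cons, Prod.mk.injEq, List.not_mem_nil, or_false] at hm
  rcases hm with ⟨rfl, rfl⟩ | ⟨rfl, rfl⟩ | ⟨rfl, rfl⟩ | ⟨rfl, rfl⟩ | ⟨rfl, rfl⟩ | ⟨rfl, rfl⟩ |
    ⟨rfl, rfl⟩ | ⟨rfl, rfl⟩ | ⟨rfl, rfl⟩ | ⟨rfl, rfl⟩ | ⟨rfl, rfl⟩ | ⟨rfl, rfl⟩
  all_goals simp only [yb82_10, yb82_20, yb82_31, yb82_32, yb82_41, yb82_42, yb82_53, yb82_54, yb82_63, yb82_64, yb82_75, yb82_76,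
      dm_add, dm_sub, dm_mul, dm_adj, dm_mm, fnOf, one_smul, adj0_82]
  all_goals try simp (decide := true) only [if_true, if_false, yb82_10, yb82_20, yb82_31, yb82_32, yb82_41, yb82_42,
      yb82_53, yb82_54, yb82_63, yb82_64, yb82_75, yb82_76]
  all_goals try noncomm_ring

theorem vx66 (h : Matrix (Fin 2) (Fin 2) Ach) :
    FldEq (fnOf 0 0 0 0 0 0 (h * mm .W) (-(mm .l * h)) 0 0 (h.trace • mm .ze) 0) 1 6 6 h := by
  refine fldEq_of fun i' l' hm => ?_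
  simp only [List.mem_cons, Prod.mk.injEq, List.not_mem_nil, or_false] at hm
  rcases hm with ⟨rfl, rfl⟩ | ⟨rfl, rfl⟩ | ⟨rfl, rfl⟩ | ⟨rfl, rfl⟩ | ⟨rfl, rfl⟩ | ⟨rfl, rfl⟩ |
    ⟨rfl, rfl⟩ | ⟨rfl, rfl⟩ | ⟨rfl, rfl⟩ | ⟨rfl, rfl⟩ | ⟨rfl, rfl⟩ | ⟨rfl, rfl⟩
  all_goals simp only [yb82_10, yb82_20, yb82_31, yb82_32, yb82_41, yb82_42, yb82_53, yb82_54, yb82_63, yb82_64, yb82_75, yb82_76,
      dm_add, dm_sub, dm_mul, dm_adj, dm_mm, fnOf, one_smul, adj0_82]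
  all_goals try simp (decide := true) only [if_true, if_false, yb82_10, yb82_20, yb82_31, yb82_32, yb82_41, yb82_42,
      yb82_53, yb82_54, yb82_63, yb82_64, yb82_75, yb82_76]
  all_goals try simp only [adj_sub82, adj_add82, adj_neg82, adj_smul82,
      Matrix.adjugate_mul_distrib (mm .u), Matrix.adjugate_mul_distrib (mm .l),
      Matrix.adjugate_mul_distrib h (mm .u), Matrix.adjugate_mul_distrib h (mm .l)]
  all_goals try simp only [adj_tr82 h, adj_tr82 (mm .S * h), adj_tr82 (h * mm .S)]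
  all_goals try simp only [mul_add, add_mul, mul_sub, sub_mul, mul_neg, neg_mul, mul_assoc,
      smul_mul_assoc, mul_smul_comm, smul_add, smul_sub, smul_neg, one_mul, mul_one, mul_zero,
      zero_mul]
  all_goals try abel

theorem vx77 (h : Matrix (Fin 2) (Fin 2) Ach) :
    FldEq (fnOf 0 0 0 0 0 0 0 (h * mm .l) 0 0 (h * mm .ze - h.trace • mm .ze) (h * mm .ka)) 1 7 7 h := by
  refine fldEq_of fun i' l' hm => ?_
  simp only [List.mem_cons, Prod.mk.injEq, List.not_mem_nil, or_false] at hm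
  rcases hm with ⟨rfl, rfl⟩ | ⟨rfl, rfl⟩ | ⟨rfl, rfl⟩ | ⟨rfl, rfl⟩ | ⟨rfl, rfl⟩ | ⟨rfl, rfl⟩ |
    ⟨rfl, rfl⟩ | ⟨rfl, rfl⟩ | ⟨rfl, rfl⟩ | ⟨rfl, rfl⟩ | ⟨rfl, rfl⟩ | ⟨rfl, rfl⟩
  all_goals simp only [yb82_10, yb82_20, yb82_31, yb82_32, yb82_41, yb82_42, yb82_53, yb82_54, yb82_63, yb82_64, yb82_75, yb82_76,
      dm_add, dm_sub, dm_mul, dm_adj, dm_mm, fnOf, one_smul, adj0_82]
  all_goals try simp (decide := true) only [if_true, if_false, yb82_10, yb82_20, yb82_31, yb82_32, yb82_41, yb82_42,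
      yb82_53, yb82_54, yb82_63, yb82_64, yb82_75, yb82_76]
  all_goals try simp only [adj_sub82, adj_add82, adj_neg82, adj_smul82,
      Matrix.adjugate_mul_distrib (mm .u), Matrix.adjugate_mul_distrib (mm .l),
      Matrix.adjugate_mul_distrib h (mm .u), Matrix.adjugate_mul_distrib h (mm .l)]
  all_goals try simp only [adj_tr82 h, adj_tr82 (mm .S * h), adj_tr82 (h * mm .S)]
  all_goals try simp only [mul_add, add_mul, mul_sub, sub_mul, mul_neg, neg_mul, mul_assoc,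
      smul_mul_assoc, mul_smul_comm, smul_add, smul_sub, smul_neg, one_mul, mul_one, mul_zero,
      zero_mul]
  all_goals try abel

end Pool.DM
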