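import Pool.Agent.Work.MP_c20ce7_dm.Main2
import Pool.Agent.Work.MP_c20ce7_dm70.S3

set_option autoImplicit false
set_option linter.unusedSectionVars false

/-!
# The conormal bundle of the support is contained in the characteristic variety
-/

open MvPolynomial

noncomputable section

namespace Pool.DM

variable {σ : Type} [Fintype σ] [DecidableEq σ] {L : Type} [AddCommGroup L] [Module ℂ L]

/-- The inner derivation `T ↦ [T, f]`. -/
def WMod.adf (W : WMod σ L) (f : MvPolynomial σ ℂ) : Module.End ℂ L →ₗ[ℂ] Module.End ℂ L where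
  toFun T := T * W.x f - W.x f * T
  map_add' T S := by simp only [add_mul, mul_add]; abel
  map_smul' c T := by
    simp only [smul_mul_assoc, mul_smul_comm, RingHom.id_apply, smul_sub]

theorem WMod.adf_apply (W : WMod σ L) (f : MvPolynomial σ ℂ) (T : Module.End ℂ L) :
    W.adf f T = T * W.x f - W.x f * T := rfl

theorem WMod.adf_x_mul (W : WMod σ L) (f g : MvPolynomial σ ℂ) (T : Module.End ℂ L) :
    W.adf f (W.x g * T) = W.x g * W.adf f T := by
  rw [adf_apply, adf_apply, mul_sub, mul_assoc, ← mul_assoc (W.x f), ← map_mul, mul_comm f g,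
    map_mul, mul_assoc]

theorem WMod.adf_mul_x (W : WMod σ L) (f g : MvPolynomial σ ℂ) (T : Module.End ℂ L) :
    W.adf f (T * W.x g) = W.adf f T * W.x g := by
  have h : W.x g * W.x f = W.x f * W.x g := by rw [← map_mul, mul_comm, map_mul]
  rw [adf_apply, adf_apply, sub_mul, mul_assoc, mul_assoc, mul_assoc, h]

theorem WMod.adf_mul_d (W : WMod σ L) (f : MvPolynomial σ ℂ) (T : Module.End ℂ L) (i : σ) :
    W.adf f (T * W.d (X i)) = W.adf f T * W.d (X i) + T * W.x (pderiv i f) := by
  rw [adf_apply, adf_apply, sub_mul, mul_assoc, W.d_mul_x, mul_add]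
  simp only [mul_assoc]
  abel

theorem WMod.adf_pow_x_mul (W : WMod σ L) (f g : MvPolynomial σ ℂ) (T : Module.End ℂ L) (n : ℕ) :
    (W.adf f ^ n) (W.x g * T) = W.x g * (W.adf f ^ n) T := by
  induction n with
  | zero => simp
  | succ n ih =>
    rw [pow_succ', Module.End.mul_apply, Module.End.mul_apply, ih, W.adf_x_mul]

theorem WMod.adf_pow_mul_d (W : WMod σ L) (f : MvPolynomial σ ℂ) (T : Module.End ℂ L) (i : σ)
    (n : ℕ) :
    (W.adf f ^ (n + 1)) (T * W.d (X i)) = (W.adf f ^ (n + 1)) T * W.d (X i) +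
      ((n : ℂ) + 1) • ((W.adf f ^ n) T * W.x (pderiv i f)) := by
  induction n with
  | zero => simp [W.adf_mul_d]
  | succ n ih =>
    rw [pow_succ' _ (n + 1), Module.End.mul_apply, ih, map_add, map_smul, W.adf_mul_d,
      W.adf_mul_x, Module.End.mul_apply, pow_succ' _ n, Module.End.mul_apply, add_assoc]
    congr 1
    push_cast
    module

/-- Iterated commutators of a monomial in the derivations. -/
theorem WMod.adf_pow_mono (W : WMod σ L) (f : MvPolynomial σ ℂ) (n : ℕ) :
    ∀ b : σ →₀ ℕ, ∑ i, b i = n → (W.adf f ^ (n + 1)) (W.d (monomial b 1)) = 0 ∧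
      (W.adf f ^ n) (W.d (monomial b 1)) =
        (n.factorial : ℂ) • W.x (∏ i, pderiv i f ^ b i) := by
  induction n with
  | zero =>
    intro b hb
    have hb0 : b = 0 := by
      ext i
      exact (Finset.sum_eq_zero_iff.1 hb) i (Finset.mem_univ i)
    subst hb0
    rw [show (monomial (0 : σ →₀ ℕ) (1 : ℂ)) = 1 from rfl, map_one]
    refine ⟨?_, ?_⟩
    · rw [zero_add, pow_one, W.adf_apply, one_mul, mul_one, sub_self]
    · simp
  | succ n ih =>
    intro b hb
    obtain ⟨i, hi⟩ : ∃ i, b i ≠ 0 := by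
      by_contra h
      push Not at h
      rw [Finset.sum_eq_zero (fun i _ => h i)] at hb
      omega
    obtain ⟨b', rfl⟩ : ∃ b' : σ →₀ ℕ, b = b' + Finsupp.single i 1 := by
      refine ⟨b - Finsupp.single i 1, ?_⟩
      ext j
      simp only [Finsupp.coe_add, Finsupp.coe_tsub, Pi.add_apply, Pi.sub_apply]
      by_cases hj : i = j
      · subst hj
        simp
        omega
      · simp [Finsupp.single_apply, hj]
    have hb' : ∑ j, b' j = n := by
      have h1 : ∑ j, (b' + Finsupp.single i 1 : σ →₀ ℕ) j = ∑ j, b' j + 1 := by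
        simp only [Finsupp.coe_add, Pi.add_apply, Finset.sum_add_distrib]
        simp [Finsupp.single_apply]
      rw [h1] at hb
      omega
    obtain ⟨h1, h2⟩ := ih b' hb'
    have hm : W.d (monomial (b' + Finsupp.single i 1) 1) =
        W.d (monomial b' 1) * W.d (X i) := by
      rw [← map_mul, X, monomial_mul, mul_one]
    rw [hm]
    constructor
    · rw [W.adf_pow_mul_d, pow_succ', Module.End.mul_apply, h1, map_zero, zero_mul, zero_mul,
        smul_zero, add_zero]
    · rw [W.adf_pow_mul_d, h1, zero_mul, zero_add, h2, smul_mul_assoc, smul_smul, ← map_mul]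
      congr 1
      · rw [Nat.factorial_succ]
        push_cast
        ring
      · congr 1
        simp only [Finsupp.coe_add, Pi.add_apply, pow_add, Finset.prod_mul_distrib]
        congr 1
        rw [Finset.prod_eq_single i]
        · simp
        · intro j _ hj
          rw [Finsupp.single_eq_of_ne hj, pow_zero]
        · intro h
          exact absurd (Finset.mem_univ i) h

theorem WMod.adf_pow_mono_lt (W : WMod σ L) (f : MvPolynomial σ ℂ) (b : σ →₀ ℕ) {k : ℕ}
    (hk : ∑ i, b i < k) : (W.adf f ^ k) (W.d (monomial b 1)) = 0 := by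
  obtain ⟨j, rfl⟩ : ∃ j, k = j + (∑ i, b i + 1) := ⟨k - (∑ i, b i + 1), by omega⟩
  rw [pow_add, Module.End.mul_apply, (W.adf_pow_mono f _ b rfl).1, map_zero]

/-- The `k`-fold commutator with `f` of an operator of order at most `k` is the multiplication by
`k! σ_k(P)(x, df(x))`. -/
theorem WMod.adf_pow_nf (W : WMod σ L) (f : MvPolynomial σ ℂ) {k : ℕ}
    {P : MvPolynomial (σ ⊕ σ) ℂ} (hP : P ∈ Fil σ (k + 1)) :
    ∃ h : MvPolynomial σ ℂ, (W.adf f ^ k) (W.nf P) = W.x h ∧
      ∀ p : σ → ℂ, eval p h = (k.factorial : ℂ) * symAt k p (fun c => eval p (pderiv c f)) P := by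
  refine Fil_ind (fun P => ∃ h : MvPolynomial σ ℂ, (W.adf f ^ k) (W.nf P) = W.x h ∧
      ∀ p : σ → ℂ, eval p h = (k.factorial : ℂ) *
        symAt k p (fun c => eval p (pderiv c f)) P) ?_ ?_ ?_ hP
  · exact ⟨0, by simp, by simp⟩
  · rintro a b ⟨g, hg, hg'⟩ ⟨h, hh, hh'⟩
    refine ⟨g + h, by rw [map_add, map_add, map_add, hg, hh], fun p => ?_⟩
    rw [map_add, map_add, hg', hh', mul_add]
  · intro m c hm
    have hnf : W.nf (monomial m c) =
        W.x (monomial (Finsupp.sumFinsuppEquivProdFinsupp m).1 c) *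
          W.d (monomial (Finsupp.sumFinsuppEquivProdFinsupp m).2 1) := by
      rw [monomial_split, W.nf_mul]
    have hsum : ∑ i, (Finsupp.sumFinsuppEquivProdFinsupp m).2 i = xd m := rfl
    rw [hnf, W.adf_pow_x_mul]
    by_cases hk : xd m = k
    · rw [(W.adf_pow_mono f k _ (hsum.trans hk)).2, mul_smul_comm, ← map_mul, ← map_smul]
      refine ⟨_, rfl, fun p => ?_⟩
      rw [smul_eval, map_mul, map_prod, symAt_apply, evt_monomial,
        Polynomial.coeff_C_mul_X_pow, if_pos hk.symm, eval_monomial,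
        Finsupp.prod_fintype _ _ (fun i => pow_zero _)]
      simp only [map_pow, Finsupp.fst_sumFinsuppEquivProdFinsupp,
        Finsupp.snd_sumFinsuppEquivProdFinsupp]
      ring
    · rw [W.adf_pow_mono_lt f _ (by rw [hsum]; omega), mul_zero]
      refine ⟨0, by simp, fun p => ?_⟩
      rw [map_zero, symAt_apply, evt_monomial, Polynomial.coeff_C_mul_X_pow,
        if_neg (fun h => hk h.symm), mul_zero]

theorem WMod.adf_pow_kill (W : WMod σ L) (f : MvPolynomial σ ℂ) {u : L} (hf : W.x f u = 0)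
    {T : Module.End ℂ L} (hT : T u = 0) (n : ℕ) : (W.adf f ^ n) T u = 0 := by
  induction n with
  | zero => simpa using hT
  | succ n ih =>
    rw [pow_succ', Module.End.mul_apply, W.adf_apply, LinearMap.sub_apply, Module.End.mul_apply,
      Module.End.mul_apply, hf, ih, map_zero, map_zero, sub_zero]

theorem WMod.Simple.lsimple_one {W : WMod σ L} (h : W.Simple) : W.LSimple 1 where
  bij := by
    rw [map_one]
    exact Function.bijective_id
  nt := by
    obtain ⟨u, -, hu⟩ := Submodule.exists_mem_ne_zero_of_ne_bot h.2.1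
    exact ⟨u, 0, hu⟩
  top := fun N hN hN0 _ => (h.2.2 N hN le_top).resolve_left hN0

theorem WMod.Simple.inCh_of_one {W : WMod σ L} (h : W.Simple) {p ξ : σ → ℂ} {u : L} (hu : u ≠ 0)
    (H : ∀ (k : ℕ) (P : MvPolynomial (σ ⊕ σ) ℂ), P ∈ Fil σ (k + 1) → W.nf P u = 0 →
      symAt k p ξ P = 0) : W.InCh p ξ :=
  h.lsimple_one.inCh_of_one (by rw [map_one]; exact one_ne_zero) hu H

theorem LocNil.exists_ker {f : Module.End ℂ L} (h : LocNil f) {u : L} (hu : u ≠ 0) :
    ∃ v : L, v ≠ 0 ∧ f v = 0 := by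
  classical
  have hex := h u
  have h0 : Nat.find hex ≠ 0 := by
    intro h0
    have := Nat.find_spec hex
    rw [h0, pow_zero, Module.End.one_apply] at this
    exact hu this
  obtain ⟨k, hk⟩ : ∃ k, Nat.find hex = k + 1 := Nat.exists_eq_succ_of_ne_zero h0
  refine ⟨(f ^ k) u, Nat.find_min hex (by omega), ?_⟩
  have := Nat.find_spec hex
  rw [hk, pow_succ', Module.End.mul_apply] at this
  exact this

theorem stmt_OWN : Stmt_OWN := by
  intro σ _ _ L _ _ W C hS hC f hf p hp
  obtain ⟨u, -, hu⟩ := Submodule.exists_mem_ne_zero_of_ne_bot hS.2.1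
  obtain ⟨v, hv, hfv⟩ := ((hC f).1 hf).exists_ker hu
  refine hS.inCh_of_one hv fun k P hP hPv => ?_
  obtain ⟨h, hh, hh'⟩ := W.adf_pow_nf f hP
  have h1 : W.x h v = 0 := by rw [← hh]; exact W.adf_pow_kill f hfv hPv k
  have h2 : LocNil (W.x h) := by
    rcases W.nilp_or_inj hS h with h3 | h3
    · intro w
      obtain ⟨n, hn⟩ := h3 w
      exact ⟨n, by rw [← map_pow]; exact hn⟩
    · exact absurd (h3 (by rw [h1, map_zero])) hv
  have h3 := (hC h).2 h2 p hp
  rw [hh'] at h3
  exact (mul_eq_zero.1 h3).resolve_left (by exact_mod_cast k.factorial_ne_zero)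

end Pool.DM
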