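import Pool.Agent.Work.MP_c20ce7_dm82.TR2

set_option autoImplicit false

/-!
# Reindexing of the basis along a bijection which respects the degrees
-/

open MvPolynomial

noncomputable section

namespace Pool.DM

section Basis

variable {ι κ : Type} [Fintype ι] [DecidableEq ι] [Fintype κ] [DecidableEq κ]
variable {R S : Type} [Add R] [One R] [Add S] [One S]

/-- The bijection `φ` of the bases respects the coordinates. -/
def CoRel (φ : ι ≃ κ) (e : ι → R) (e' : κ → S) : Prop :=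
  ∀ a b, e a = e b + 1 ↔ e' (φ a) = e' (φ b) + 1

/-- The bijection `φ` of the bases respects the relation to have the same degree. -/
def DegRel (φ : ι ≃ κ) (e : ι → R) (e' : κ → S) : Prop :=
  ∀ a b, e a = e b ↔ e' (φ a) = e' (φ b)

theorem CoRel.symm {φ : ι ≃ κ} {e : ι → R} {e' : κ → S} (h : CoRel φ e e') :
    CoRel φ.symm e' e := by
  intro a b
  rw [h]
  simp

theorem DegRel.symm {φ : ι ≃ κ} {e : ι → R} {e' : κ → S} (h : DegRel φ e e') :
    DegRel φ.symm e' e := by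
  intro a b
  rw [h]
  simp

/-- The bijection of the coordinates. -/
def coMap {φ : ι ≃ κ} {e : ι → R} {e' : κ → S} (h : CoRel φ e e') : Co e ≃ Co e' :=
  (φ.prodCongr φ).subtypeEquiv fun p => h p.1 p.2

variable {φ : ι ≃ κ} {e : ι → R} {e' : κ → S}

theorem coMap_mk (h : CoRel φ e e') {a b : ι} (hab : e a = e b + 1) :
    coMap h ⟨(a, b), hab⟩ = ⟨(φ a, φ b), (h a b).1 hab⟩ := rfl

theorem coMap_symm_mk (h : CoRel φ e e') {a b : ι} (hab : e' (φ a) = e' (φ b) + 1) :
    (coMap h).symm ⟨(φ a, φ b), hab⟩ = ⟨(a, b), (h a b).2 hab⟩ := by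
  rw [Equiv.symm_apply_eq, coMap_mk]

theorem mat_coMap (h : CoRel φ e e') (x : Co e' → ℂ) (a b : ι) :
    mat e (x ∘ coMap h) a b = mat e' x (φ a) (φ b) := by
  by_cases hab : e a = e b + 1
  · rw [mat_of e _ hab, mat_of e' _ ((h a b).1 hab), Function.comp_apply, coMap_mk]
  · rw [mat_of_not e _ hab, mat_of_not e' _ (fun h' => hab ((h a b).2 h'))]

theorem ymat_coMap (h : CoRel φ e e') (ξ : Co e' → ℂ) (a b : ι) :
    ymat e (ξ ∘ coMap h) a b = ymat e' ξ (φ a) (φ b) := by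
  by_cases hab : e b = e a + 1
  · rw [ymat_of e _ hab, ymat_of e' _ ((h b a).1 hab), Function.comp_apply, coMap_mk]
  · rw [ymat_of_not e _ hab, ymat_of_not e' _ (fun h' => hab ((h b a).2 h'))]

theorem coMap_of_mat (h : CoRel φ e e') {x : Co e → ℂ} {x1 : Co e' → ℂ}
    (hx : ∀ a b, mat e' x1 (φ a) (φ b) = mat e x a b) : x1 ∘ coMap h = x := by
  apply mat_injective e
  funext a b
  rw [mat_coMap, hx]

theorem coMap_of_ymat (h : CoRel φ e e') {ξ : Co e → ℂ} {ξ1 : Co e' → ℂ}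
    (hξ : ∀ a b, ymat e' ξ1 (φ a) (φ b) = ymat e ξ a b) : ξ1 ∘ coMap h = ξ := by
  apply ymat_injective e
  funext a b
  rw [ymat_coMap, hξ]

variable {L : Type} [AddCommGroup L] [Module ℂ L]

theorem WMod.xo_coMap (W : WMod (Co e) L) (h : CoRel φ e e') (a b : ι) :
    (W.rex (coMap h)).xo (φ a) (φ b) = W.xo a b := by
  by_cases hab : e a = e b + 1
  · rw [WMod.xo_of _ ((h a b).1 hab), W.rex_xX, coMap_symm_mk, W.xo_of hab]
  · rw [WMod.xo_of_not _ (fun h' => hab ((h a b).2 h')), W.xo_of_not hab]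

theorem WMod.dO_coMap (W : WMod (Co e) L) (h : CoRel φ e e') (a b : ι) :
    (W.rex (coMap h)).dO (φ a) (φ b) = W.dO a b := by
  by_cases hab : e a = e b + 1
  · rw [WMod.dO_of _ ((h a b).1 hab), W.rex_dX, coMap_symm_mk, W.dO_of hab]
  · rw [WMod.dO_of_not _ (fun h' => hab ((h a b).2 h')), W.dO_of_not hab]

theorem WMod.G_coMap (W : WMod (Co e) L) (h : CoRel φ e e') (a b : ι) :
    (W.rex (coMap h)).G (φ a) (φ b) = W.G a b := by
  simp only [WMod.G]
  rw [← φ.sum_comp, ← φ.sum_comp]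
  simp only [W.xo_coMap, W.dO_coMap]

theorem WMod.Equivariant.coMap {W : WMod (Co e) L} (hW : W.Equivariant) (h : CoRel φ e e')
    (h0 : DegRel φ e e') : (W.rex (coMap h)).Equivariant := by
  refine ⟨fun a u => ?_, fun a b hab he => ?_⟩
  · obtain ⟨a, rfl⟩ := φ.surjective a
    rw [W.G_coMap]
    exact hW.diag a u
  · obtain ⟨a, rfl⟩ := φ.surjective a
    obtain ⟨b, rfl⟩ := φ.surjective b
    rw [W.G_coMap]
    exact hW.nil a b (fun h' => hab (by rw [h'])) ((h0 a b).2 he)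

theorem WMod.InCh.coMap {W : WMod (Co e) L} (h : CoRel φ e e') {x ξ : Co e → ℂ}
    (hW : W.InCh x ξ) {x1 ξ1 : Co e' → ℂ} (hx : ∀ a b, mat e' x1 (φ a) (φ b) = mat e x a b)
    (hξ : ∀ a b, ymat e' ξ1 (φ a) (φ b) = ymat e ξ a b) : (W.rex (Pool.DM.coMap h)).InCh x1 ξ1 := by
  refine WMod.InCh.rex ?_
  rw [coMap_of_mat h hx, coMap_of_ymat h hξ]
  exact hW

theorem conormal_coMap (h : CoRel φ e e') (h0 : DegRel φ e e') {C : Set (Co e → ℂ)}
    {C' : Set (Co e' → ℂ)} (hC : ∀ x : Co e' → ℂ, x ∈ C' ↔ x ∘ coMap h ∈ C)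
    (p : (Co e' → ℂ) × (Co e' → ℂ)) :
    p ∈ Conormal e' C' ↔ ((p.1 ∘ coMap h, p.2 ∘ coMap h) : (Co e → ℂ) × (Co e → ℂ)) ∈
      Conormal e C := by
  simp only [Conormal, Set.mem_setOf_eq, hC]
  refine and_congr_right fun _ => ?_
  constructor
  · intro hp m hm
    have := hp (Matrix.reindex φ φ m) (fun a b hab => by
      have := hm (φ.symm a) (φ.symm b) hab
      rw [h0] at this
      simpa using this)
    rw [← this, ← (Pool.DM.coMap h).sum_comp]
    refine Finset.sum_congr rfl fun c _ => ?_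
    obtain ⟨⟨a, b⟩, hc⟩ := c
    rw [coMap_mk, Function.comp_apply, coMap_mk]
    congr 1
    simp only [Matrix.sub_apply, Matrix.mul_apply, mat_coMap]
    rw [← φ.sum_comp, ← φ.sum_comp]
    simp [Matrix.reindex_apply]
  · intro hp m hm
    have := hp (Matrix.reindex φ.symm φ.symm m) (fun a b hab => by
      have := hm (φ a) (φ b) (by simpa [Matrix.reindex_apply] using hab)
      rwa [← h0] at this)
    rw [← this, ← (Pool.DM.coMap h).sum_comp]
    refine Finset.sum_congr rfl fun c _ => ?_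
    obtain ⟨⟨a, b⟩, hc⟩ := c
    rw [coMap_mk, Function.comp_apply, coMap_mk]
    congr 1
    simp only [Matrix.sub_apply, Matrix.mul_apply, mat_coMap]
    rw [← φ.sum_comp, ← φ.sum_comp]
    simp [Matrix.reindex_apply]

/-- **Reindexing.** Everything is transported along a bijection of the bases which respects the degrees. -/
theorem WMod.IsIC.coMap {W : WMod (Co e) L} {C : Set (Co e → ℂ)} (hW : W.IsIC C)
    (h : CoRel φ e e') (h0 : DegRel φ e e') {C' : Set (Co e' → ℂ)}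
    (hC : ∀ x : Co e' → ℂ, x ∈ C' ↔ x ∘ Pool.DM.coMap h ∈ C) :
    (W.rex (Pool.DM.coMap h)).IsIC C' := by
  refine ⟨hW.simple.rex _, hW.growth.rex _, hW.equi.coMap h h0, ?_⟩
  have := hW.supp.rex (f := Pool.DM.coMap h)
  have he : {x | x ∘ Pool.DM.coMap h ∈ C} = C' := by
    ext x
    exact (hC x).symm
  rwa [he] at this

end Basis

/-! ## Integral degrees and real degrees -/

section Real

variable {ι κ : Type} [Fintype ι] [DecidableEq ι] [Fintype κ] [DecidableEq κ]

theorem coRel_real (φ : ι ≃ κ) (e : ι → ℝ) (e' : κ → ℤ) (t : ℝ) (h : ∀ a, e a = (e' (φ a) : ℝ) + t) :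
    CoRel φ e e' := by
  intro a b
  rw [h a, h b]
  constructor
  · intro h1
    have : ((e' (φ a) : ℤ) : ℝ) = ((e' (φ b) + 1 : ℤ) : ℝ) := by push_cast; linarith
    exact_mod_cast this
  · intro h1
    rw [h1]
    push_cast
    ring

theorem degRel_real (φ : ι ≃ κ) (e : ι → ℝ) (e' : κ → ℤ) (t : ℝ) (h : ∀ a, e a = (e' (φ a) : ℝ) + t) :
    DegRel φ e e' := by
  intro a b
  rw [h a, h b]
  constructor
  · intro h1
    have : ((e' (φ a) : ℤ) : ℝ) = ((e' (φ b) : ℤ) : ℝ) := by linarith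
    exact_mod_cast this
  · intro h1
    rw [h1]

end Real

end Pool.DM
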