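import Pool.Agent.Work.MP_c20ce7_dm.Main

set_option autoImplicit false

/-!
# Reindexing of the coordinates and transposition
-/

open MvPolynomial

noncomputable section

namespace Pool.DM

section Reindex

variable {σ τ : Type} [Fintype σ] [DecidableEq σ] [Fintype τ] [DecidableEq τ]
variable {L : Type} [AddCommGroup L] [Module ℂ L]

/-- Reindexing of the coordinates along a bijection. -/
def WMod.rex (W : WMod σ L) (f : σ ≃ τ) : WMod τ L where
  x := W.x.comp (rename f.symm)
  d := W.d.comp (rename f.symm)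
  comm := fun i j => by
    simp only [AlgHom.comp_apply, rename_X]
    rw [W.comm]
    simp

theorem WMod.rex_x (W : WMod σ L) (f : σ ≃ τ) (p : MvPolynomial τ ℂ) :
    (W.rex f).x p = W.x (rename f.symm p) := rfl

theorem WMod.rex_d (W : WMod σ L) (f : σ ≃ τ) (p : MvPolynomial τ ℂ) :
    (W.rex f).d p = W.d (rename f.symm p) := rfl

theorem WMod.rex_xX (W : WMod σ L) (f : σ ≃ τ) (j : τ) :
    (W.rex f).x (X j) = W.x (X (f.symm j)) := by
  rw [W.rex_x, rename_X]

theorem WMod.rex_dX (W : WMod σ L) (f : σ ≃ τ) (j : τ) :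
    (W.rex f).d (X j) = W.d (X (f.symm j)) := by
  rw [W.rex_d, rename_X]

theorem WMod.rex_x_rename (W : WMod σ L) (f : σ ≃ τ) (p : MvPolynomial σ ℂ) :
    (W.rex f).x (rename f p) = W.x p := by
  rw [W.rex_x, rename_rename, Equiv.symm_comp_self, rename_id_apply]

theorem WMod.rex_d_rename (W : WMod σ L) (f : σ ≃ τ) (p : MvPolynomial σ ℂ) :
    (W.rex f).d (rename f p) = W.d p := by
  rw [W.rex_d, rename_rename, Equiv.symm_comp_self, rename_id_apply]

theorem WMod.rex_stable {W : WMod σ L} (f : σ ≃ τ) {N : Submodule ℂ L} :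
    (W.rex f).Stable N ↔ W.Stable N := by
  constructor
  · intro h u hu
    refine ⟨fun i => ?_, fun i => ?_⟩
    · have := (h u hu).1 (f i)
      rwa [W.rex_xX, Equiv.symm_apply_apply] at this
    · have := (h u hu).2 (f i)
      rwa [W.rex_dX, Equiv.symm_apply_apply] at this
  · intro h u hu
    refine ⟨fun i => ?_, fun i => ?_⟩
    · rw [W.rex_xX]
      exact (h u hu).1 _
    · rw [W.rex_dX]
      exact (h u hu).2 _

theorem WMod.Simple.rex {W : WMod σ L} (h : W.Simple) (f : σ ≃ τ) : (W.rex f).Simple := by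
  refine ⟨(WMod.rex_stable f).2 h.1, h.2.1, fun N hN hle => ?_⟩
  exact h.2.2 N ((WMod.rex_stable f).1 hN) hle

theorem WMod.Growth.rex {W : WMod σ L} (h : W.Growth) (f : σ ≃ τ) : (W.rex f).Growth := by
  obtain ⟨G, c, hG⟩ := h
  refine ⟨G, c, ⟨hG.mono, hG.fin, ?_, ?_, hG.exh, ?_⟩⟩
  · intro k i u hu
    rw [W.rex_xX]
    exact hG.hx k _ u hu
  · intro k i u hu
    rw [W.rex_dX]
    exact hG.hd k _ u hu
  · intro k
    rw [← Fintype.card_congr f]
    exact hG.bound k

theorem WMod.rex_nf (W : WMod σ L) (f : σ ≃ τ) (P : MvPolynomial (τ ⊕ τ) ℂ) :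
    (W.rex f).nf P = W.nf (rename (Sum.map f.symm f.symm) P) := by
  induction P using sum_ind with
  | h0 g h =>
    rw [WMod.nf_mul, map_mul, rename_rename, rename_rename]
    have h1 : (Sum.map f.symm f.symm) ∘ (Sum.inl : τ → τ ⊕ τ) = Sum.inl ∘ f.symm := rfl
    have h2 : (Sum.map f.symm f.symm) ∘ (Sum.inr : τ → τ ⊕ τ) = Sum.inr ∘ f.symm := rfl
    rw [h1, h2, ← rename_rename, ← rename_rename, WMod.nf_mul]
    rfl
  | hadd p q hp hq => rw [map_add, map_add, map_add, hp, hq]

theorem weight_map (f : σ ≃ τ) (m : τ ⊕ τ →₀ ℕ) :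
    Finsupp.weight (wt σ) (m.mapDomain (Sum.map f.symm f.symm)) = Finsupp.weight (wt τ) m := by
  rw [Finsupp.weight_apply, Finsupp.weight_apply, Finsupp.sum_mapDomain_index]
  · refine Finsupp.sum_congr fun s _ => ?_
    rcases s with s | s <;> rfl
  · intro s
    simp
  · intro s a b
    rw [add_smul]

theorem wtd_rename (f : σ ≃ τ) (P : MvPolynomial (τ ⊕ τ) ℂ) {m : ℕ}
    (h : weightedTotalDegree (wt τ) P ≤ m) :
    weightedTotalDegree (wt σ) (rename (Sum.map f.symm f.symm) P) ≤ m := by
  rw [weightedTotalDegree, Finset.sup_le_iff] at h ⊢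
  intro n hn
  have hs := support_rename_of_injective (p := P)
    (Equiv.injective (Equiv.sumCongr f.symm f.symm))
  have hs' : (rename (Sum.map f.symm f.symm) P).support =
      P.support.image (Finsupp.mapDomain (Sum.map f.symm f.symm)) := hs
  rw [hs', Finset.mem_image] at hn
  obtain ⟨k, hk, rfl⟩ := hn
  rw [weight_map]
  exact h k hk

theorem whc_rename (f : σ ≃ τ) (m : ℕ) (P : MvPolynomial (τ ⊕ τ) ℂ) :
    weightedHomogeneousComponent (wt σ) m (rename (Sum.map f.symm f.symm) P) =
      rename (Sum.map f.symm f.symm) (weightedHomogeneousComponent (wt τ) m P) := by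
  induction P using MvPolynomial.induction_on' with
  | add p q hp hq => simp only [map_add, hp, hq]
  | monomial k c =>
    rw [rename_monomial]
    have h1 : IsWeightedHomogeneous (wt τ) (monomial k c) (Finsupp.weight (wt τ) k) :=
      isWeightedHomogeneous_monomial _ _ _ rfl
    have h2 : IsWeightedHomogeneous (wt σ)
        (monomial (k.mapDomain (Sum.map f.symm f.symm)) c) (Finsupp.weight (wt τ) k) :=
      isWeightedHomogeneous_monomial _ _ _ (weight_map f k)
    by_cases hk : m = Finsupp.weight (wt τ) k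
    · subst hk
      rw [h1.weightedHomogeneousComponent_same, h2.weightedHomogeneousComponent_same,
        rename_monomial]
    · rw [h1.weightedHomogeneousComponent_ne m hk, h2.weightedHomogeneousComponent_ne m hk,
        map_zero]

theorem WMod.InCh.rex {W : WMod σ L} {f : σ ≃ τ} {x ξ : τ → ℂ} (h : W.InCh (x ∘ f) (ξ ∘ f)) :
    (W.rex f).InCh x ξ := by
  intro u hu m P hP h0
  rw [W.rex_nf] at h0
  have := h u hu m _ (wtd_rename f P hP) h0
  rw [whc_rename, eval_rename] at this
  have he : Sum.elim (x ∘ f) (ξ ∘ f) ∘ Sum.map f.symm f.symm = Sum.elim x ξ := by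
    funext s
    rcases s with s | s <;> simp
  rwa [he] at this

theorem WMod.NilOn.rex {W : WMod σ L} {f : σ ≃ τ} {Z : Set (σ → ℂ)} (h : W.NilOn Z) :
    (W.rex f).NilOn {x | x ∘ f ∈ Z} := by
  intro g hg
  rw [W.rex_x]
  refine h _ fun x hx => ?_
  rw [eval_rename]
  refine hg _ ?_
  have : (x ∘ f.symm) ∘ f = x := by
    funext s
    simp
  simpa [this] using hx

theorem WMod.SuppEq.rex {W : WMod σ L} {f : σ ≃ τ} {Z : Set (σ → ℂ)} (h : W.SuppEq Z) :
    (W.rex f).SuppEq {x | x ∘ f ∈ Z} := by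
  intro g
  rw [W.rex_x, ← h]
  constructor
  · intro hg x hx
    rw [eval_rename]
    refine hg _ ?_
    have : (x ∘ f.symm) ∘ f = x := by
      funext s
      simp
    simpa [this] using hx
  · intro hg x hx
    have := hg (x ∘ f) hx
    rw [eval_rename] at this
    have h2 : (x ∘ f) ∘ f.symm = x := by
      funext s
      simp
    rwa [h2] at this

end Reindex

theorem stmt_REX : Stmt_REX := by
  intro σ τ _ _ _ _ f L _ _ W
  exact ⟨W.rex f, fun p => ⟨W.rex_x_rename f p, W.rex_d_rename f p⟩, fun h => h.rex f,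
    fun h => h.rex f, fun x ξ h => h.rex, fun Z h => h.rex⟩

end Pool.DM
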